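import Mathlib

/-!
Proper convex cones `{F ≤ 0}`, their automorphisms and ultrafilter limits.
-/

namespace Pool.Agent.Lib.MP_2f98a8_gt.Ev

open Set Filter Topology

/-- The ultrafilter along which all limits are taken. -/
noncomputable abbrev U : Filter ℕ := (Filter.hyperfilter ℕ : Filter ℕ)

lemma ucomp {Y : Type*} [TopologicalSpace Y] {s : Set Y} (hs : IsCompact s) {f : ℕ → Y}
    (h : ∀ᶠ n in U, f n ∈ s) : ∃ y ∈ s, Tendsto f U (𝓝 y) :=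
  hs.ultrafilter_le_nhds' ((Filter.hyperfilter ℕ).map f) h

lemma ulim {X Y : Type*} [NormedAddCommGroup X] [NormedSpace ℝ X] [FiniteDimensional ℝ X]
    [NormedAddCommGroup Y] [NormedSpace ℝ Y] [FiniteDimensional ℝ Y] (T : ℕ → X →L[ℝ] Y)
    (h : ∀ y, ∃ M, ∀ᶠ n in U, ‖T n y‖ ≤ M) : ∃ S, Tendsto T U (𝓝 S) := by
  let b := Module.finBasis ℝ X
  obtain ⟨C, -, hC⟩ := b.exists_opNorm_le (F := Y)
  choose M hM using h
  have h1 : ∀ᶠ n in U, T n ∈ Metric.closedBall (0 : X →L[ℝ] Y) (C * ∑ i, |M (b i)|) := by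
    filter_upwards [eventually_all.2 fun i => hM (b i)] with n hn
    rw [mem_closedBall_zero_iff]
    refine hC (Finset.sum_nonneg fun i _ => abs_nonneg _) fun i => ?_
    exact ((hn i).trans (le_abs_self _)).trans
      (Finset.single_le_sum (f := fun i => |M (b i)|) (fun i _ => abs_nonneg _) (Finset.mem_univ i))
  have : ProperSpace (X →L[ℝ] Y) := FiniteDimensional.proper ℝ _
  obtain ⟨S, -, hS⟩ := ucomp (isCompact_closedBall _ _) h1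
  exact ⟨S, hS⟩

lemma tapp {X Y ι : Type*} [NormedAddCommGroup X] [NormedSpace ℝ X]
    [NormedAddCommGroup Y] [NormedSpace ℝ Y] {l : Filter ι} {T : ι → X →L[ℝ] Y} {S : X →L[ℝ] Y}
    {x : ι → X} {x₀ : X} (h1 : Tendsto T l (𝓝 S)) (h2 : Tendsto x l (𝓝 x₀)) :
    Tendsto (fun n => T n (x n)) l (𝓝 (S x₀)) :=
  ((isBoundedBilinearMap_apply.continuous).tendsto (S, x₀)).comp (h1.prodMk_nhds h2)

variable {V : Type*} [NormedAddCommGroup V] [NormedSpace ℝ V]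

/-- A proper convex cone `{F ≤ 0}` with boundary `{F = 0}` and interior point `e`. -/
structure Pkg (F : V → ℝ) (e : V) (t : V →L[ℝ] ℝ) : Prop where
  cont : Continuous F
  add : ∀ x y, F (x + y) ≤ F x + F y
  smul : ∀ c : ℝ, 0 ≤ c → ∀ x, F (c • x) = c * F x
  int : F e < 0
  prop : ∀ y, F y ≤ 0 → ‖y‖ ≤ t y

/-- Automorphisms of the cone. -/
structure Aut (F : V → ℝ) (g : V →L[ℝ] V) : Prop where
  unit : IsUnit g
  bd : ∀ y, F (g y) = 0 ↔ F y = 0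
  le : ∀ y, F (g y) ≤ 0 ↔ F y ≤ 0

variable {F : V → ℝ} {e : V} {t : V →L[ℝ] ℝ}

lemma Pkg.zero (p : Pkg F e t) : F 0 = 0 := by simpa using p.smul 0 le_rfl 0

lemma Pkg.add_le (p : Pkg F e t) {x y : V} (hx : F x ≤ 0) (hy : F y ≤ 0) : F (x + y) ≤ 0 := by
  linarith [p.add x y]

lemma Pkg.smul_le (p : Pkg F e t) {c : ℝ} (hc : 0 ≤ c) {x : V} (hx : F x ≤ 0) : F (c • x) ≤ 0 := by
  rw [p.smul c hc]; exact mul_nonpos_of_nonneg_of_nonpos hc hx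

lemma Pkg.smul_eq (p : Pkg F e t) {c : ℝ} (hc : 0 ≤ c) {x : V} (hx : F x = 0) : F (c • x) = 0 := by
  rw [p.smul c hc, hx, mul_zero]

lemma Pkg.span (p : Pkg F e t) (y : V) : ∃ s : ℝ, 0 ≤ s ∧ F (y + s • e) ≤ 0 := by
  have h := neg_pos.2 p.int
  refine ⟨|F y| / -F e, by positivity, ?_⟩
  have h1 := p.add y ((|F y| / -F e) • e)
  rw [p.smul _ (by positivity)] at h1
  have h2 : |F y| / -F e * F e = -|F y| := by field_simp [p.int.ne]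
  linarith [le_abs_self (F y)]

/-- A property closed under differences that holds on the cone holds everywhere. -/
lemma Pkg.ind (p : Pkg F e t) {Q : V → Prop} (h1 : ∀ y, F y ≤ 0 → Q y)
    (h2 : ∀ x y, Q x → Q y → Q (x - y)) (y : V) : Q y := by
  obtain ⟨s, hs, h⟩ := p.span y
  simpa using h2 _ _ (h1 _ h) (h1 _ (p.smul_le hs p.int.le))

lemma Pkg.exit (p : Pkg F e t) {y z : V} (hy : F y ≤ 0) (hz : z ≠ 0) :
    ∃ s : ℝ, F (y + s • z) = 0 := by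
  by_contra hc
  push Not at hc
  have c : Continuous fun s : ℝ => F (y + s • z) := p.cont.comp (by fun_prop)
  have h1 : ∀ s : ℝ, F (y + s • z) ≤ 0 := by
    intro s
    by_contra h
    push Not at h
    obtain ⟨u, hu⟩ := intermediate_value_univ 0 s c
      (show (0 : ℝ) ∈ Icc _ _ from ⟨by simpa using hy, h.le⟩)
    exact hc u hu
  have hz' := norm_pos_iff.2 hz
  set s := (|t y| + 1) / ‖z‖ with hs
  have a1 := p.prop _ (h1 s)
  have a2 := p.prop _ (h1 (-s))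
  have a3 := norm_sub_le (y + s • z) (y + (-s) • z)
  have a4 : y + s • z - (y + (-s) • z) = (2 * s) • z := by module
  have a5 : ‖(2 * s) • z‖ = 2 * (|t y| + 1) := by
    rw [norm_smul, Real.norm_of_nonneg (by positivity), hs]; field_simp
  rw [a4, a5] at a3
  simp only [map_add, map_smul, smul_eq_mul] at a1 a2
  linarith [le_abs_self (t y)]

lemma Aut.one : Aut F 1 := ⟨isUnit_one, fun _ => Iff.rfl, fun _ => Iff.rfl⟩

lemma Aut.mul {g h : V →L[ℝ] V} (hg : Aut F g) (hh : Aut F h) : Aut F (g * h) :=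
  ⟨hg.unit.mul hh.unit, fun y => (hg.bd _).trans (hh.bd y), fun y => (hg.le _).trans (hh.le y)⟩

lemma app_inv {g : V →L[ℝ] V} (hg : IsUnit g) (y : V) : g (Ring.inverse g y) = y := by
  rw [← mul_apply_eq_comp, Ring.mul_inverse_cancel _ hg]; rfl

lemma inv_app {g : V →L[ℝ] V} (hg : IsUnit g) (y : V) : Ring.inverse g (g y) = y := by
  rw [← mul_apply_eq_comp, Ring.inverse_mul_cancel _ hg]; rfl

lemma unit_ne {g : V →L[ℝ] V} (hg : IsUnit g) {y : V} (hy : y ≠ 0) : g y ≠ 0 := fun h =>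
  hy (by rw [← inv_app hg y, h, map_zero])

lemma Aut.inv {g : V →L[ℝ] V} (hg : Aut F g) : Aut F (Ring.inverse g) :=
  ⟨hg.unit.ringInverse, fun y => by rw [← hg.bd, app_inv hg.unit],
    fun y => by rw [← hg.le, app_inv hg.unit]⟩

lemma Aut.lt {g : V →L[ℝ] V} (hg : Aut F g) (y : V) : F (g y) < 0 ↔ F y < 0 := by
  rw [lt_iff_le_and_ne, lt_iff_le_and_ne, hg.le, Ne, hg.bd]

lemma Aut.smul (p : Pkg F e t) {g : V →L[ℝ] V} (hg : Aut F g) {c : ℝ} (hc : 0 < c) :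
    Aut F (c • g) := by
  refine ⟨?_, fun y => ?_, fun y => ?_⟩
  · rw [Algebra.smul_def]
    exact ((Ne.isUnit hc.ne').map _).mul hg.unit
  · rw [smul_apply, p.smul c hc.le, ← hg.bd]
    simp [hc.ne']
  · rw [smul_apply, p.smul c hc.le, ← hg.le]
    exact ⟨fun h => nonpos_of_mul_nonpos_right h hc, mul_nonpos_of_nonneg_of_nonpos hc.le⟩

lemma Pkg.lim_eq (p : Pkg F e t) {y : ℕ → V} {y₀ : V} (h : Tendsto y U (𝓝 y₀))
    (h' : ∀ᶠ n in U, F (y n) = 0) : F y₀ = 0 :=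
  (isClosed_eq p.cont continuous_const).mem_of_tendsto h h'

lemma Pkg.lim_le (p : Pkg F e t) {y : ℕ → V} {y₀ : V} (h : Tendsto y U (𝓝 y₀))
    (h' : ∀ᶠ n in U, F (y n) ≤ 0) : F y₀ ≤ 0 :=
  (isClosed_le p.cont continuous_const).mem_of_tendsto h h'

lemma tinv [CompleteSpace V] {ι : Type*} {l : Filter ι} {f : ι → V →L[ℝ] V} {h : V →L[ℝ] V}
    (hu : IsUnit h) (hf : Tendsto f l (𝓝 h)) :
    Tendsto (fun k => Ring.inverse (f k)) l (𝓝 (Ring.inverse h)) := by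
  obtain ⟨u, rfl⟩ := hu
  exact (NormedRing.inverse_continuousAt u).tendsto.comp hf

lemma Pkg.aut_lim [CompleteSpace V] (p : Pkg F e t) {g : ℕ → V →L[ℝ] V} {g₀ : V →L[ℝ] V}
    (h : Tendsto g U (𝓝 g₀)) (hu : IsUnit g₀) (h' : ∀ᶠ n in U, Aut F (g n)) : Aut F g₀ := by
  refine ⟨hu, fun y => ⟨fun hy => ?_, fun hy => ?_⟩, fun y => ⟨fun hy => ?_, fun hy => ?_⟩⟩
  · rw [← inv_app hu y]
    exact p.lim_eq (tapp (tinv hu h) tendsto_const_nhds) (h'.mono fun n hn => (hn.inv.bd _).2 hy)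
  · exact p.lim_eq (tapp h tendsto_const_nhds) (h'.mono fun n hn => (hn.bd _).2 hy)
  · rw [← inv_app hu y]
    exact p.lim_le (tapp (tinv hu h) tendsto_const_nhds) (h'.mono fun n hn => (hn.inv.le _).2 hy)
  · exact p.lim_le (tapp h tendsto_const_nhds) (h'.mono fun n hn => (hn.le _).2 hy)

/-- A compact set of automorphisms is transitive on the boundary rays. -/
def Trans (F : V → ℝ) : Prop :=
  ∃ 𝒜 : Set (V →L[ℝ] V), IsCompact 𝒜 ∧ (∀ a ∈ 𝒜, IsUnit a) ∧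
    ∀ v w, F v = 0 → v ≠ 0 → F w = 0 → w ≠ 0 → ∃ a ∈ 𝒜, Aut F a ∧ ∃ c : ℝ, 0 < c ∧ a v = c • w

lemma Pkg.move (p : Pkg F e t) (T : Trans F) {v w : V} (hv : F v = 0) (v0 : v ≠ 0) (hw : F w = 0)
    (w0 : w ≠ 0) : ∃ a, Aut F a ∧ a v = w := by
  obtain ⟨𝒜, -, -, H⟩ := T
  obtain ⟨a, -, ha, c, hc, e⟩ := H v w hv v0 hw w0
  exact ⟨c⁻¹ • a, ha.smul p (inv_pos.2 hc), by simp [e, smul_smul, hc.ne']⟩

lemma Pkg.movers [CompleteSpace V] (p : Pkg F e t) (T : Trans F) {v w : ℕ → V} {v₀ w₀ : V}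
    (hv : Tendsto v U (𝓝 v₀)) (hw : Tendsto w U (𝓝 w₀)) (v0 : v₀ ≠ 0) (w0 : w₀ ≠ 0)
    (h1 : ∀ᶠ n in U, F (v n) = 0) (h2 : ∀ᶠ n in U, F (w n) = 0) :
    ∃ (a : ℕ → V →L[ℝ] V) (a₀ : V →L[ℝ] V), Aut F a₀ ∧ Tendsto a U (𝓝 a₀) ∧ a₀ v₀ = w₀ ∧
      ∀ᶠ n in U, Aut F (a n) ∧ a n (v n) = w n := by
  obtain ⟨𝒜, hc, hu, H⟩ := T
  obtain ⟨b, hb, -⟩ := H v₀ w₀ (p.lim_eq hv h1) v0 (p.lim_eq hw h2) w0
  have : ∀ n, ∃ a ∈ 𝒜, (F (v n) = 0 ∧ v n ≠ 0 ∧ F (w n) = 0 ∧ w n ≠ 0 →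
      Aut F a ∧ ∃ c : ℝ, 0 < c ∧ a (v n) = c • w n) := by
    intro n
    by_cases h : F (v n) = 0 ∧ v n ≠ 0 ∧ F (w n) = 0 ∧ w n ≠ 0
    · obtain ⟨a, ha, h'⟩ := H _ _ h.1 h.2.1 h.2.2.1 h.2.2.2
      exact ⟨a, ha, fun _ => h'⟩
    · exact ⟨b, hb, fun h' => absurd h' h⟩
  choose a ha ha' using this
  obtain ⟨a₀, ha₀, hl⟩ := ucomp hc (Eventually.of_forall ha)
  have n0 : ‖a₀ v₀‖ ≠ 0 := norm_ne_zero_iff.2 (unit_ne (hu _ ha₀) v0)
  have l2 : Tendsto (fun n => (‖w n‖ / ‖a n (v n)‖) • a n) U (𝓝 ((‖w₀‖ / ‖a₀ v₀‖) • a₀)) :=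
    (hw.norm.div (tapp hl hv).norm n0).smul hl
  have ev : ∀ᶠ n in U, Aut F ((‖w n‖ / ‖a n (v n)‖) • a n) ∧
      ((‖w n‖ / ‖a n (v n)‖) • a n) (v n) = w n := by
    filter_upwards [h1, h2, hv.eventually_ne v0, hw.eventually_ne w0] with n a1 a2 a3 a4
    obtain ⟨b1, c, hc, b2⟩ := ha' n ⟨a1, a3, a2, a4⟩
    have := norm_pos_iff.2 a4
    have e1 : ‖w n‖ / ‖a n (v n)‖ = c⁻¹ := by
      rw [b2, norm_smul, Real.norm_of_nonneg hc.le]; field_simp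
    rw [e1]
    exact ⟨b1.smul p (inv_pos.2 hc), by simp [b2, smul_smul, hc.ne']⟩
  refine ⟨_, _, p.aut_lim l2 ?_ (ev.mono fun n hn => hn.1), l2, ?_, ev⟩
  · rw [Algebra.smul_def]
    exact ((Ne.isUnit (div_ne_zero (norm_ne_zero_iff.2 w0) n0)).map _).mul (hu _ ha₀)
  · exact tendsto_nhds_unique (tapp l2 hv) (hw.congr' (ev.mono fun n hn => hn.2.symm))

/-- `η` supports the cone at `ξ` and a ball touches from inside. -/
def Inner (F : V → ℝ) (ξ : V) (η : V →L[ℝ] ℝ) : Prop :=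
  ∃ b : ℝ, 0 < b ∧ ∀ d, b * ‖d‖ ^ 2 < η d → F (ξ + d) < 0

/-- `η` supports the cone at `ξ` and a round cone touches from outside. -/
def Outer (F : V → ℝ) (ξ : V) (η : V →L[ℝ] ℝ) : Prop :=
  η ξ = 0 ∧ (∀ y, F y ≤ 0 → 0 ≤ η y) ∧
    ∃ a : ℝ, 0 ≤ a ∧ ∀ y, F y ≤ 0 → ∃ l : ℝ, ‖y - l • ξ‖ ^ 2 ≤ a * ‖y‖ * η y

lemma Inner.map {ξ : V} {η : V →L[ℝ] ℝ} (h : Inner F ξ η) {g : V →L[ℝ] V} (hg : Aut F g) :
    Inner F (g ξ) (η.comp (Ring.inverse g)) := by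
  obtain ⟨b, hb, h⟩ := h
  refine ⟨b * (‖Ring.inverse g‖ + 1) ^ 2, by positivity, fun d hd => ?_⟩
  rw [← app_inv hg.unit d, ← map_add, hg.lt]
  refine h _ (lt_of_le_of_lt ?_ hd)
  rw [mul_assoc, ← mul_pow]
  gcongr
  nlinarith [(Ring.inverse g).le_opNorm d, norm_nonneg d]

lemma Outer.map {ξ : V} {η : V →L[ℝ] ℝ} (h : Outer F ξ η) {g : V →L[ℝ] V} (hg : Aut F g) :
    Outer F (g ξ) (η.comp (Ring.inverse g)) := by
  obtain ⟨h0, h1, a, ha, h⟩ := h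
  refine ⟨by simp [inv_app hg.unit, h0], fun y hy => h1 _ ((hg.inv.le y).2 hy),
    ‖g‖ ^ 2 * a * ‖Ring.inverse g‖, by positivity, fun y hy => ?_⟩
  obtain ⟨l, hl⟩ := h _ ((hg.inv.le y).2 hy)
  refine ⟨l, ?_⟩
  have e1 : y - l • g ξ = g (Ring.inverse g y - l • ξ) := by simp [app_inv hg.unit]
  have e2 := h1 _ ((hg.inv.le y).2 hy)
  rw [e1]
  calc ‖g (Ring.inverse g y - l • ξ)‖ ^ 2 ≤ (‖g‖ * ‖Ring.inverse g y - l • ξ‖) ^ 2 := by
        gcongr; exact g.le_opNorm _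
    _ = ‖g‖ ^ 2 * ‖Ring.inverse g y - l • ξ‖ ^ 2 := by ring
    _ ≤ ‖g‖ ^ 2 * (a * ‖Ring.inverse g y‖ * η (Ring.inverse g y)) := by gcongr
    _ ≤ ‖g‖ ^ 2 * (a * (‖Ring.inverse g‖ * ‖y‖) * η (Ring.inverse g y)) := by
        gcongr; exact ContinuousLinearMap.le_opNorm _ _
    _ = _ := by simp only [ContinuousLinearMap.comp_apply]; ring

lemma Inner.unique {ξ : V} {η η' : V →L[ℝ] ℝ} (h : Inner F ξ η) {d₀ : V} (hd : η d₀ = 1)
    (h0 : η' ξ = 0) (h1 : ∀ y, F y ≤ 0 → 0 ≤ η' y) : 0 ≤ η' d₀ ∧ ∀ y, η' y = η' d₀ * η y := by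
  obtain ⟨b, hb, h⟩ := h
  have a1 : ∀ d, 0 < η d → 0 ≤ η' d := by
    intro d hd
    set s := η d / (b * ‖d‖ ^ 2 + 1) with hs
    have s0 : 0 < s := by positivity
    have := h1 _ (h (s • d) (by
      rw [norm_smul, Real.norm_of_nonneg s0.le, map_smul, smul_eq_mul, mul_pow]
      have : s * (b * ‖d‖ ^ 2 + 1) = η d := by rw [hs]; field_simp
      nlinarith [mul_pos s0 s0])).le
    rw [map_add, h0, zero_add, map_smul, smul_eq_mul] at this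
    exact nonneg_of_mul_nonneg_right this s0
  have a0 : 0 ≤ η' d₀ := a1 _ (by rw [hd]; exact one_pos)
  have a2 : ∀ d, η d = 0 → 0 ≤ η' d := by
    intro d hd'
    refine le_of_forall_pos_le_add fun ε hε => ?_
    have := a1 (d + (ε / (η' d₀ + 1)) • d₀) (by simp [hd, hd']; positivity)
    rw [map_add, map_smul, smul_eq_mul] at this
    have e : ε / (η' d₀ + 1) * η' d₀ ≤ ε := by
      rw [div_mul_eq_mul_div, div_le_iff₀ (by positivity)]; nlinarith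
    linarith
  refine ⟨a0, fun y => ?_⟩
  have b1 := a2 (y - η y • d₀) (by simp [hd])
  have b2 := a2 (-(y - η y • d₀)) (by simp [hd])
  simp only [map_neg, map_sub, map_smul, smul_eq_mul] at b1 b2
  linarith

lemma Outer.line {ξ : V} {η : V →L[ℝ] ℝ} (h : Outer F ξ η) {y : V} (hy : F y ≤ 0) (h0 : η y = 0) :
    ∃ l : ℝ, y = l • ξ := by
  obtain ⟨-, -, a, -, h⟩ := h
  obtain ⟨l, hl⟩ := h y hy
  rw [h0, mul_zero] at hl
  exact ⟨l, sub_eq_zero.1 (norm_eq_zero.1 (pow_eq_zero_iff two_ne_zero |>.1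
    (le_antisymm hl (by positivity))))⟩

end Pool.Agent.Lib.MP_2f98a8_gt.Ev
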