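import Mathlib
import Pool.Agent.Lib.MP_2f98a8_gt.Ev.Basic

/-!
Blowing up a cone at a boundary ray along a degenerating sequence of automorphisms.
-/

namespace Pool.Agent.Lib.MP_2f98a8_gt.Ev

open Set Filter Topology

variable {V : Type*} [NormedAddCommGroup V] [NormedSpace ℝ V]

/-- A splitting of the space along two vectors. -/
structure Frame (ξ ζ : V) (θ η : V →L[ℝ] ℝ) (P : V →L[ℝ] V) : Prop where
  a : θ ξ = 1
  b : θ ζ = 0
  c : η ξ = 0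
  d : η ζ = 1
  dec : ∀ y, P y = y - θ y • ξ - η y • ζ

variable {F : V → ℝ} {e ξ ζ : V} {t θ η : V →L[ℝ] ℝ} {P : V →L[ℝ] V}

lemma Frame.θP (f : Frame ξ ζ θ η P) (y : V) : θ (P y) = 0 := by simp [f.dec, f.a, f.b]
lemma Frame.ηP (f : Frame ξ ζ θ η P) (y : V) : η (P y) = 0 := by simp [f.dec, f.c, f.d]
lemma Frame.Pξ (f : Frame ξ ζ θ η P) : P ξ = 0 := by simp [f.dec, f.a, f.c]
lemma Frame.Pζ (f : Frame ξ ζ θ η P) : P ζ = 0 := by simp [f.dec, f.b, f.d]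
lemma Frame.PP (f : Frame ξ ζ θ η P) (y : V) : P (P y) = P y := by
  rw [f.dec (P y), f.θP, f.ηP]; simp
lemma Frame.sum (f : Frame ξ ζ θ η P) (y : V) : θ y • ξ + P y + η y • ζ = y := by
  rw [f.dec]; abel

lemma inner_ev (p : Pkg F e t) (f : Frame ξ ζ θ η P) {b : ℝ}
    (hb : ∀ d, b * ‖d‖ ^ 2 < η d → F (ξ + d) < 0) {ε : ℕ → ℝ} (e0 : Tendsto ε U (𝓝 0))
    (e1 : ∀ᶠ n in U, 0 < ε n) {w : ℕ → V} {w₀ : V} (hw : Tendsto w U (𝓝 w₀)) (h1 : 0 < θ w₀)
    (h2 : b * ‖P w₀‖ ^ 2 < θ w₀ * η w₀) :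
    ∀ᶠ n in U, F (θ (w n) • ξ + ε n • P (w n) + (ε n ^ 2 * η (w n)) • ζ) < 0 := by
  have tθ : Tendsto (fun n => θ (w n)) U (𝓝 (θ w₀)) := (θ.continuous.tendsto _).comp hw
  have tη : Tendsto (fun n => η (w n)) U (𝓝 (η w₀)) := (η.continuous.tendsto _).comp hw
  have tP : Tendsto (fun n => P (w n)) U (𝓝 (P w₀)) := (P.continuous.tendsto _).comp hw
  have t1 : Tendsto (fun n => b * ‖P (w n) + (ε n * η (w n)) • ζ‖ ^ 2) U (𝓝 (b * ‖P w₀‖ ^ 2)) := by
    have := ((tP.add ((e0.mul tη).smul_const ζ)).norm.pow 2).const_mul b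
    simpa using this
  filter_upwards [e1, tθ.eventually_const_lt h1, t1.eventually_lt (tθ.mul tη) h2] with n a1 a2 a3
  have a4 := hb ((ε n / θ (w n)) • (P (w n) + (ε n * η (w n)) • ζ)) (by
    rw [norm_smul, Real.norm_of_nonneg (by positivity), map_smul, map_add, f.ηP, map_smul, f.d]
    simp only [smul_eq_mul, mul_one, zero_add]
    have := mul_lt_mul_of_pos_left a3 (show 0 < (ε n / θ (w n)) ^ 2 by positivity)
    have e2 : (ε n / θ (w n)) ^ 2 * (θ (w n) * η (w n)) = ε n / θ (w n) * (ε n * η (w n)) := by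
      field_simp
    rw [e2] at this
    nlinarith)
  have a5 : θ (w n) • ξ + ε n • P (w n) + (ε n ^ 2 * η (w n)) • ζ =
      θ (w n) • (ξ + (ε n / θ (w n)) • (P (w n) + (ε n * η (w n)) • ζ)) := by
    rw [smul_add, smul_smul, mul_div_cancel₀ _ a2.ne']
    module
  rw [a5, p.smul _ a2.le]
  exact mul_neg_of_pos_of_neg a2 a4

/-- The data produced by the blow-up. -/
structure Blown (F : V → ℝ) (ξ ζ : V) (θ η : V →L[ℝ] ℝ) (P : V →L[ℝ] V) (g : ℕ → V →L[ℝ] V)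
    (ε : ℕ → ℝ) (k : ℕ → V →L[ℝ] V) (k₀ : V →L[ℝ] V) : Prop where
  e0 : Tendsto ε U (𝓝 0)
  e1 : ∀ᶠ n in U, 0 < ε n
  ηg : ∀ᶠ n in U, ∀ y, η (g n y) = ε n ^ 2 * η y
  θk : ∀ n y, θ (k n y) = θ (g n y)
  ηk : ∀ n y, η (k n y) = η y
  Pk : ∀ n y, P (k n y) = (ε n)⁻¹ • P (g n y)
  lim : Tendsto k U (𝓝 k₀)
  θ0 : ∀ y, θ (k₀ y) = θ y
  η0 : ∀ y, η (k₀ y) = η y
  kξ : k₀ ξ = ξ
  kζ : k₀ ζ = ζ

lemma Blown.dec (f : Frame ξ ζ θ η P) {g k : ℕ → V →L[ℝ] V} {ε : ℕ → ℝ} {k₀ : V →L[ℝ] V}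
    (B : Blown F ξ ζ θ η P g ε k k₀) : ∀ᶠ n in U, ∀ y,
      θ (k n y) • ξ + ε n • P (k n y) + (ε n ^ 2 * η (k n y)) • ζ = g n y := by
  filter_upwards [B.e1, B.ηg] with n a1 a2 y
  rw [B.θk, B.ηk, B.Pk, smul_smul, mul_inv_cancel₀ a1.ne', one_smul, ← a2, f.sum]

variable [FiniteDimensional ℝ V]

lemma exists_blown (p : Pkg F e t) (f : Frame ξ ζ θ η P) (In : Inner F ξ η) (Out : Outer F ξ η)
    {g : ℕ → V →L[ℝ] V} (hg : ∀ᶠ n in U, Aut F (g n) ∧ g n ξ = ξ)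
    (lim : Tendsto g U (𝓝 (θ.smulRight ξ))) (hζ : F ζ ≤ 0) :
    ∃ ε k k₀, Blown F ξ ζ θ η P g ε k k₀ := by
  obtain ⟨-, h1, a, ha, h2⟩ := Out
  have gy : ∀ y, Tendsto (fun n => g n y) U (𝓝 (θ y • ξ)) := fun y =>
    tapp lim tendsto_const_nhds
  let ε : ℕ → ℝ := fun n => √(η (g n ζ))
  have e0 : Tendsto ε U (𝓝 0) := by
    have := ((η.continuous.tendsto _).comp (gy ζ)).sqrt
    simpa [f.b] using this
  have e2 : ∀ᶠ n in U, 0 < ε n ∧ ∀ y, η (g n y) = ε n ^ 2 * η y := by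
    filter_upwards [hg] with n hn
    obtain ⟨b1, b2⟩ := In.unique (η' := η.comp (g n)) f.d (by simp [hn.2, f.c])
      (fun y hy => h1 _ ((hn.1.le y).2 hy))
    simp only [ContinuousLinearMap.comp_apply] at b1 b2
    refine ⟨Real.sqrt_pos.2 (lt_of_le_of_ne b1 fun h => ?_), fun y => ?_⟩
    · have := b2 (Ring.inverse (g n) ζ)
      rw [app_inv hn.1.unit, f.d, ← h, zero_mul] at this
      exact one_ne_zero this
    · rw [Real.sq_sqrt b1, b2]
  let m : ℕ → V →L[ℝ] V := fun n => (ε n)⁻¹ • P.comp (g n)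
  have mb : ∀ᶠ n in U, ∀ y, F y ≤ 0 → ‖m n y‖ ^ 2 ≤ ‖P‖ ^ 2 * a * η y * ‖g n y‖ := by
    filter_upwards [hg, e2] with n hn h3 y hy
    obtain ⟨l, hl⟩ := h2 _ ((hn.1.le y).2 hy)
    have e1 : m n y = (ε n)⁻¹ • P (g n y - l • ξ) := by simp [m, f.Pξ]
    have e3 := h3.1
    rw [e1, norm_smul, norm_inv, Real.norm_of_nonneg e3.le, mul_pow, inv_pow,
      inv_mul_le_iff₀ (by positivity)]
    calc ‖P (g n y - l • ξ)‖ ^ 2 ≤ (‖P‖ * ‖g n y - l • ξ‖) ^ 2 := by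
          gcongr; exact P.le_opNorm _
      _ = ‖P‖ ^ 2 * ‖g n y - l • ξ‖ ^ 2 := by ring
      _ ≤ ‖P‖ ^ 2 * (a * ‖g n y‖ * η (g n y)) := by gcongr
      _ = _ := by rw [h3.2]; ring
  obtain ⟨m₀, hm⟩ := ulim m (p.ind (fun y hy => by
      refine ⟨‖P‖ ^ 2 * a * η y * (‖θ y • ξ‖ + 1) + 1, ?_⟩
      filter_upwards [mb, (gy y).norm.eventually_lt_const (lt_add_one _)] with n b1 b2
      have b3 := b1 y hy
      have b4 : ‖P‖ ^ 2 * a * η y * ‖g n y‖ ≤ ‖P‖ ^ 2 * a * η y * (‖θ y • ξ‖ + 1) := by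
        have := h1 y hy
        gcongr
      nlinarith [sq_nonneg (‖m n y‖ - 1)])
    (by
      rintro x y ⟨M, hM⟩ ⟨M', hM'⟩
      refine ⟨M + M', ?_⟩
      filter_upwards [hM, hM'] with n b1 b2
      rw [map_sub]
      exact (norm_sub_le _ _).trans (add_le_add b1 b2)))
  have my : ∀ y, Tendsto (fun n => m n y) U (𝓝 (m₀ y)) := fun y => tapp hm tendsto_const_nhds
  have θm : ∀ y, θ (m₀ y) = 0 := fun y =>
    tendsto_nhds_unique ((θ.continuous.tendsto _).comp (my y))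
      (tendsto_const_nhds.congr fun n => by simp [m, f.θP])
  have ηm : ∀ y, η (m₀ y) = 0 := fun y =>
    tendsto_nhds_unique ((η.continuous.tendsto _).comp (my y))
      (tendsto_const_nhds.congr fun n => by simp [m, f.ηP])
  have mξ : m₀ ξ = 0 := tendsto_nhds_unique (my ξ)
    (tendsto_const_nhds.congr' (hg.mono fun n hn => by simp [m, hn.2, f.Pξ]))
  have mζ : m₀ ζ = 0 := by
    have := le_of_tendsto_of_tendsto ((my ζ).norm.pow 2)
      ((gy ζ).norm.const_mul (‖P‖ ^ 2 * a * η ζ)) (mb.mono fun n hn => hn ζ hζ)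
    simpa [f.b] using this
  refine ⟨ε, fun n => (θ.smulRight ξ).comp (g n) + m n + η.smulRight ζ,
    θ.smulRight ξ + m₀ + η.smulRight ζ, e0, e2.mono fun n hn => hn.1, e2.mono fun n hn => hn.2,
    fun n y => by simp [m, f.a, f.b, f.θP], fun n y => by simp [m, f.c, f.d, f.ηP],
    fun n y => by simp [m, f.Pξ, f.Pζ, f.PP], ?_, fun y => by simp [f.a, f.b, θm],
    fun y => by simp [f.c, f.d, ηm], by simp [f.a, f.c, mξ], by simp [f.b, f.d, mζ]⟩
  refine (Tendsto.add ?_ hm).add tendsto_const_nhds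
  have e3 : θ.smulRight ξ * θ.smulRight ξ = θ.smulRight ξ := by ext y; simp [f.a]
  have := lim.const_mul (θ.smulRight ξ)
  rwa [e3] at this

variable {g k : ℕ → V →L[ℝ] V} {ε : ℕ → ℝ} {k₀ : V →L[ℝ] V}

omit [FiniteDimensional ℝ V] in
lemma Blown.inside (B : Blown F ξ ζ θ η P g ε k k₀) (p : Pkg F e t) (f : Frame ξ ζ θ η P) {b : ℝ}
    (hb : ∀ d, b * ‖d‖ ^ 2 < η d → F (ξ + d) < 0) (hg : ∀ᶠ n in U, Aut F (g n)) {y : V}
    (h1 : 0 < θ y) (h2 : b * ‖P (k₀ y)‖ ^ 2 < θ y * η y) : F y < 0 := by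
  have := inner_ev p f hb B.e0 B.e1 (tapp B.lim (tendsto_const_nhds (x := y)))
    (by rwa [B.θ0]) (by rwa [B.θ0, B.η0])
  obtain ⟨n, a1, a2, a3⟩ := (this.and ((B.dec f).and hg)).exists
  rwa [a2, a3.lt] at a1

lemma Blown.unit (B : Blown F ξ ζ θ η P g ε k k₀) (p : Pkg F e t) (f : Frame ξ ζ θ η P)
    (In : Inner F ξ η) (hg : ∀ᶠ n in U, Aut F (g n)) (hξ : F ξ ≤ 0) (hζ : F ζ ≤ 0) :
    IsUnit k₀ := by
  obtain ⟨b, -, hb⟩ := In
  have : CompleteSpace V := FiniteDimensional.complete ℝ V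
  have inj : Function.Injective k₀ := by
    rw [injective_iff_map_eq_zero]
    intro x hx
    by_contra h0
    obtain ⟨s, hs⟩ := p.exit (p.add_le hξ hζ) h0
    have a1 : θ x = 0 := by rw [← B.θ0, hx, map_zero]
    have a2 : η x = 0 := by rw [← B.η0, hx, map_zero]
    refine (B.inside p f hb hg (y := ξ + ζ + s • x) ?_ ?_).ne hs
    · simp [a1, f.a, f.b]
    · simp [a1, a2, f.a, f.b, f.c, f.d, hx, B.kξ, B.kζ, f.Pξ, f.Pζ]
  rw [ContinuousLinearMap.isUnit_iff_bijective]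
  exact ⟨inj, (LinearMap.injective_iff_surjective (f := (k₀ : V →ₗ[ℝ] V))).1 inj⟩

lemma Blown.translate (B : Blown F ξ ζ θ η P g ε k k₀) (p : Pkg F e t) (T : Trans F)
    (f : Frame ξ ζ θ η P) (In : Inner F ξ η) (Out : Outer F ξ η) (hg : ∀ᶠ n in U, Aut F (g n))
    (lim : Tendsto g U (𝓝 (θ.smulRight ξ))) (hξ : F ξ = 0) (hζ : F ζ ≤ 0) {y₀ : V}
    (h0 : F y₀ = 0) (h1 : θ y₀ = 1) :
    ∃ l : V →L[ℝ] ℝ, l ξ = 0 ∧ l ζ = 0 ∧
      ∀ y, F y = 0 → θ y = 1 → F (y₀ + y - ξ + l y • ζ) = 0 := by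
  have : CompleteSpace V := FiniteDimensional.complete ℝ V
  have ku := B.unit p f In hg hξ.le hζ
  obtain ⟨b, b0, hb⟩ := In
  have ξ0 : ξ ≠ 0 := fun h => by simpa [h] using f.a
  have gy : ∀ y, θ y = 1 → Tendsto (fun n => g n y) U (𝓝 ξ) := fun y hy => by
    simpa [hy] using tapp lim (tendsto_const_nhds (x := y))
  obtain ⟨a, a₀, a1, a2, a3, a4⟩ := p.movers T (v := fun _ => ξ) tendsto_const_nhds (gy y₀ h1) ξ0 ξ0
    (Eventually.of_forall fun _ => hξ) (hg.mono fun n hn => (hn.bd _).2 h0)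
  obtain ⟨h, hl, hh⟩ : ∃ h : ℕ → V →L[ℝ] V, Tendsto h U (𝓝 1) ∧
      ∀ᶠ n in U, Aut F (h n) ∧ h n ξ = g n y₀ := by
    refine ⟨fun n => a n * Ring.inverse a₀, ?_, a4.mono fun n hn => ⟨hn.1.mul a1.inv, ?_⟩⟩
    · simpa [Ring.mul_inverse_cancel _ a1.unit] using a2.mul_const (Ring.inverse a₀)
    · have : Ring.inverse a₀ ξ = ξ := by
        conv_lhs => rw [← a3]
        exact inv_app a1.unit ξ
      rw [mul_apply_eq_comp, this, hn.2]
  have hζ' : Tendsto (fun n => h n ζ) U (𝓝 ζ) := tapp hl tendsto_const_nhds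
  have ηζ : Tendsto (fun n => η (h n ζ)) U (𝓝 1) := by
    simpa [f.d, Function.comp_def] using (η.continuous.tendsto _).comp hζ'
  let l : ℕ → V →L[ℝ] ℝ := fun n => (ε n)⁻¹ • η.comp ((h n).comp P)
  have lb : ∀ x, ∀ᶠ n in U, -(η y₀ + (b * ‖P x‖ ^ 2 + 1) * 2) ≤ l n x := by
    intro x
    set s := b * ‖P x‖ ^ 2 + 1 with hs
    have s0 : 0 < s := by positivity
    have := inner_ev p f hb B.e0 B.e1 (tendsto_const_nhds (x := ξ + P x + s • ζ))
      (by simp [f.a, f.b, f.θP]) (by simp [f.a, f.b, f.c, f.d, f.θP, f.ηP, f.Pξ, f.Pζ, f.PP, hs])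
    filter_upwards [this, hh, B.e1, B.ηg, ηζ.eventually_lt_const one_lt_two] with n c1 c2 c3 c4 c5
    have c6 := Out.2.1 _ ((c2.1.le _).2 c1.le)
    simp only [map_add, map_smul, f.a, f.b, f.c, f.d, f.θP, f.ηP, f.Pξ, f.Pζ, f.PP, smul_eq_mul,
      c2.2, c4, mul_zero, add_zero, zero_add, mul_one, one_mul, smul_zero] at c6
    have c7 : η (h n (P x)) = ε n * l n x := by simp [l, c3.ne']
    rw [c7] at c6
    have c8 : 0 ≤ ε n ^ 2 * (η y₀ + l n x + s * η (h n ζ)) := by linarith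
    have c9 := nonneg_of_mul_nonneg_right c8 (by positivity)
    nlinarith
  obtain ⟨l₀, hl₀⟩ := ulim l fun x => by
    refine ⟨η y₀ + (b * ‖P x‖ ^ 2 + 1) * 2, ?_⟩
    filter_upwards [lb x, lb (-x)] with n c1 c2
    simp only [map_neg, norm_neg] at c2
    rw [Real.norm_eq_abs, abs_le]
    constructor <;> linarith
  have lξ : l₀ ξ = 0 := tendsto_nhds_unique (tapp hl₀ tendsto_const_nhds)
    (tendsto_const_nhds.congr fun n => by simp [l, f.Pξ])
  have lζ : l₀ ζ = 0 := tendsto_nhds_unique (tapp hl₀ tendsto_const_nhds)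
    (tendsto_const_nhds.congr fun n => by simp [l, f.Pζ])
  refine ⟨l₀.comp k₀, by simp [B.kξ, lξ], by simp [B.kζ, lζ], fun y hy y1 => ?_⟩
  have zl : Tendsto (fun n => k n y) U (𝓝 (k₀ y)) := tapp B.lim tendsto_const_nhds
  have z0 : Tendsto (fun n => k n y₀) U (𝓝 (k₀ y₀)) := tapp B.lim tendsto_const_nhds
  have θz : Tendsto (fun n => θ (k n y)) U (𝓝 1) := by
    simpa [B.θ0, y1, Function.comp_def] using (θ.continuous.tendsto _).comp zl
  have t1 : Tendsto (fun n => θ (h n (g n y))) U (𝓝 1) := by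
    simpa [f.a, Function.comp_def] using (θ.continuous.tendsto _).comp (tapp hl (gy y y1))
  have t2 : Tendsto (fun n => θ (k n y) • P (k n y₀) + P (h n (P (k n y))) +
      (ε n * η y) • P (h n ζ)) U (𝓝 (P (k₀ y₀) + P (k₀ y))) := by
    have := ((θz.smul ((P.continuous.tendsto _).comp z0)).add ((P.continuous.tendsto _).comp
      (tapp hl ((P.continuous.tendsto _).comp zl)))).add
      ((B.e0.mul_const (η y)).smul ((P.continuous.tendsto _).comp hζ'))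
    simpa [f.PP] using this
  have t3 : Tendsto (fun n => θ (k n y) * η y₀ + l n (k n y) + η y * η (h n ζ)) U
      (𝓝 (η y₀ + l₀ (k₀ y) + η y)) := by
    simpa using ((θz.mul_const (η y₀)).add (tapp hl₀ zl)).add (ηζ.const_mul (η y))
  have t4 := ((t1.smul_const ξ).add t2).add (t3.smul_const ζ)
  have e1 : (1 : ℝ) • ξ + (P (k₀ y₀) + P (k₀ y)) + (η y₀ + l₀ (k₀ y) + η y) • ζ =
      k₀ (y₀ + y - ξ + (l₀.comp k₀) y • ζ) := by
    simp only [map_add, map_sub, map_smul, B.kξ, B.kζ, ContinuousLinearMap.comp_apply, f.dec,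
      B.θ0, B.η0, h1, y1]
    module
  rw [e1] at t4
  have t5 : Tendsto (fun n => k n (Ring.inverse (g n) (h n (g n y)))) U
      (𝓝 (k₀ (y₀ + y - ξ + (l₀.comp k₀) y • ζ))) := by
    refine t4.congr' ?_
    filter_upwards [hg, hh, B.e1, B.ηg, B.dec f] with n c1 c2 c3 c4 c5
    have d1 : h n (g n y) = θ (k n y) • g n y₀ + ε n • h n (P (k n y)) +
        (ε n ^ 2 * η y) • h n ζ := by
      conv_lhs => rw [← c5 y]
      simp only [map_add, map_smul, c2.2, B.ηk]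
    have d2 := c4 (Ring.inverse (g n) (h n (g n y)))
    rw [app_inv c1.unit] at d2
    rw [← f.sum (k n (Ring.inverse (g n) (h n (g n y)))),
      B.θk n (Ring.inverse (g n) (h n (g n y))), B.ηk,
      B.Pk n (Ring.inverse (g n) (h n (g n y))), app_inv c1.unit]
    congr 2
    · rw [B.Pk n y₀, d1]
      simp only [map_add, map_smul, smul_add, smul_smul]
      congr 2
      · rw [mul_comm]
      · rw [inv_mul_cancel₀ c3.ne', one_smul]
      · field_simp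
    · have d3 : η (h n (P (k n y))) = ε n * l n (k n y) := by simp [l, c3.ne']
      apply mul_left_cancel₀ (show ε n ^ 2 ≠ 0 by positivity)
      rw [← d2, d1]
      simp only [map_add, map_smul, smul_eq_mul, d3, c4]
      ring
  have t6 := tapp (tinv ku B.lim) t5
  rw [inv_app ku] at t6
  refine p.lim_eq t6 ?_
  filter_upwards [hg, hh, B.lim.eventually (Units.isOpen.mem_nhds ku)] with n c1 c2 c3
  rw [inv_app c3, c1.inv.bd, c2.1.bd, c1.bd, hy]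

end Pool.Agent.Lib.MP_2f98a8_gt.Ev
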