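import Mathlib
import Pool.Agent.Lib.MP_2f98a8_gt.Slice

/-!
Continuous sections of a closed transitive groupoid over a ball of any dimension.
-/

namespace Pool.Agent.Lib.MP_2f98a8_gt.Ev

open Set Filter Topology Pool.Agent.Lib.MP_2f98a8_gt

variable {A : Type*} [NormedRing A] [NormedAlgebra ℝ A] [NormedAlgebra ℚ A] [CompleteSpace A]
  [NormOneClass A] [FiniteDimensional ℝ A]

section General

variable {Q : Type*} [TopologicalSpace Q]

/-- A continuous section over `S` with base point `z`. -/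
def Sct (R : A → Q → Q → Prop) (z : Q) (S : Set Q) : Prop :=
  ∃ σ : Q → A, ContinuousOn σ S ∧ ∀ x ∈ S, R (σ x) z x

variable {R : A → Q → Q → Prop}

omit [NormedAlgebra ℝ A] [NormedAlgebra ℚ A] [CompleteSpace A] [NormOneClass A]
  [FiniteDimensional ℝ A] in
lemma Sct.mono {z : Q} {S T : Set Q} (h : Sct R z S) (hT : T ⊆ S) : Sct R z T := by
  obtain ⟨σ, h1, h2⟩ := h
  exact ⟨σ, h1.mono hT, fun x hx => h2 x (hT hx)⟩

omit [NormedAlgebra ℝ A] [NormedAlgebra ℚ A] [NormOneClass A] [FiniteDimensional ℝ A] in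
lemma Sct.patch (G : IsGroupoid R) {z : Q} {S T : Set Q} (hS : IsClosed S)
    (hT : IsClosed T) (ρ : Q → Q) (hρ : Continuous ρ) (h1 : ∀ x ∈ T, ρ x ∈ S ∩ T)
    (h2 : ∀ x ∈ S ∩ T, ρ x = x) (s : Sct R z S) (t : Sct R z T) : Sct R z (S ∪ T) := by
  classical
  obtain ⟨σ, σc, σR⟩ := s
  obtain ⟨τ, τc, τR⟩ := t
  let τ' : Q → A := fun x => τ x * (Ring.inverse (τ (ρ x)) * σ (ρ x))
  have c1 : ContinuousOn τ' T := by
    refine τc.mul (ContinuousOn.mul ?_ (σc.comp hρ.continuousOn fun x hx => (h1 x hx).1))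
    intro x hx
    exact tendsto_inverse (G.unit (τR _ (h1 x hx).2))
      ((τc.comp hρ.continuousOn fun x hx => (h1 x hx).2) x hx)
  have e : ∀ x ∈ S ∩ T, τ' x = σ x := by
    intro x hx
    simp only [τ', h2 x hx]
    rw [← mul_assoc, Ring.mul_inverse_cancel _ (G.unit (τR x hx.2)), one_mul]
  refine ⟨fun x => if x ∈ S then σ x else τ' x, ?_, ?_⟩
  · refine ContinuousOn.union_of_isClosed ?_ ?_ hS hT
    · exact σc.congr fun x hx => if_pos hx
    · refine c1.congr fun x hx => ?_
      by_cases h : x ∈ S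
      · simp only [if_pos h]; exact (e x ⟨h, hx⟩).symm
      · simp only [if_neg h]
  · intro x hx
    by_cases h : x ∈ S
    · simp only [if_pos h]; exact σR x h
    · simp only [if_neg h]
      have hxT : x ∈ T := hx.resolve_left h
      exact G.mul (τR x hxT) (G.mul (G.inv (τR _ (h1 x hxT).2)) (σR _ (h1 x hxT).1))

end General

section Cube

variable {m : ℕ} {R : A → (Fin m → ℝ) → (Fin m → ℝ) → Prop}

/-- A box that is long in the first `j` coordinates, thin in the others, and cut in one. -/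
def box (L : ℝ) (j : ℕ) (x : Fin m → ℝ) (ε : ℝ) : Set (Fin m → ℝ) :=
  {y | ∀ i : Fin m, (i.val < j → |y i| ≤ L) ∧ (j ≤ i.val → |y i - x i| ≤ ε)}

lemma isClosed_box (L : ℝ) (j : ℕ) (x : Fin m → ℝ) (ε : ℝ) : IsClosed (box L j x ε) := by
  simp only [box, ofPred_forall, ofPred_and]
  refine isClosed_iInter fun i => IsClosed.inter (isClosed_iInter fun _ => ?_)
    (isClosed_iInter fun _ => ?_)
  · exact isClosed_le (by fun_prop) continuous_const
  · exact isClosed_le (by fun_prop) continuous_const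

lemma sct_box (G : IsGroupoid R) (z : Fin m → ℝ) {L : ℝ} (hL : 0 ≤ L) (j : ℕ) :
    ∀ x, ∃ ε > 0, Sct R z (box L j x ε) := by
  induction j with
  | zero =>
    intro x
    obtain ⟨r, hr, σ, h1, h2⟩ := G.local_section x
    obtain ⟨g, hg⟩ := G.trans z x
    have : Sct R z (Metric.ball x r) :=
      ⟨fun y => σ y * g, h1.mul continuousOn_const, fun y hy => G.mul (h2 y hy) hg⟩
    refine ⟨r / 2, by linarith, this.mono fun y hy => ?_⟩
    rw [Metric.mem_ball, dist_pi_lt_iff hr]
    intro i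
    have := (hy i).2 (Nat.zero_le _)
    rw [Real.dist_eq]
    linarith
  | succ j ih =>
    intro x
    by_cases hj : j < m
    swap
    · obtain ⟨ε, hε, h⟩ := ih x
      refine ⟨ε, hε, h.mono fun y hy i => ⟨fun _ => (hy i).1 (by omega), fun h => by omega⟩⟩
    let J : Fin m := ⟨j, hj⟩
    have key := interval_induction
      (fun a b => ∃ ε > 0, Sct R z (box L (j + 1) x ε ∩ {y | y J ∈ Icc a b})) (-L) L
      (by linarith) (fun t _ => ?_) ?_
    · obtain ⟨ε, hε, h⟩ := key
      exact ⟨ε, hε, h.mono fun y hy => ⟨hy, abs_le.1 ((hy J).1 (Nat.lt_succ_self j))⟩⟩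
    · obtain ⟨ε, hε, h⟩ := ih (Function.update x J t)
      refine ⟨ε, hε, fun a b ha _ hb => ⟨ε, hε, h.mono ?_⟩⟩
      rintro y ⟨hy, hy1, hy2⟩ i
      refine ⟨fun hi => (hy i).1 (by omega), fun hi => ?_⟩
      rcases eq_or_ne i J with rfl | hne
      · rw [Function.update_self, abs_le]
        constructor <;> linarith
      · rw [Function.update_of_ne hne]
        refine (hy i).2 ?_
        have : i.val ≠ j := fun e => hne (Fin.ext e)
        omega
    · rintro a b c hab hbc ⟨ε₁, h1, s1⟩ ⟨ε₂, h2, s2⟩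
      have sub : ∀ ε, min ε₁ ε₂ ≤ ε → box L (j + 1) x (min ε₁ ε₂) ⊆ box L (j + 1) x ε :=
        fun ε hε y hy i => ⟨(hy i).1, fun h => ((hy i).2 h).trans hε⟩
      have t1 := s1.mono (inter_subset_inter_left _ (sub _ (min_le_left _ _)))
      have t2 := s2.mono (inter_subset_inter_left _ (sub _ (min_le_right _ _)))
      refine ⟨min ε₁ ε₂, lt_min h1 h2, ?_⟩
      by_cases hb : -L ≤ b
      swap
      · refine t2.mono ?_
        rintro y ⟨hy, -, hy2⟩
        have := abs_le.1 ((hy J).1 (Nat.lt_succ_self j))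
        exact ⟨hy, by linarith [this.1, not_le.1 hb], hy2⟩
      by_cases hb' : b ≤ L
      swap
      · refine t1.mono ?_
        rintro y ⟨hy, hy1, -⟩
        have := abs_le.1 ((hy J).1 (Nat.lt_succ_self j))
        exact ⟨hy, hy1, by linarith [this.2, not_le.1 hb']⟩
      have cl : ∀ a b : ℝ, IsClosed (box L (j + 1) x (min ε₁ ε₂) ∩ {y | y J ∈ Icc a b}) :=
        fun a b => (isClosed_box _ _ _ _).inter (isClosed_Icc.preimage (continuous_apply J))
      have := Sct.patch G (cl a b) (cl b c) (fun y => Function.update y J b) (by fun_prop)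
        (fun y hy => ?_) (fun y hy => ?_) t1 t2
      · refine this.mono ?_
        rintro y ⟨hy, hy1, hy2⟩
        rcases le_total (y J) b with h | h
        · exact Or.inl ⟨hy, hy1, h⟩
        · exact Or.inr ⟨hy, h, hy2⟩
      · have hbox : Function.update y J b ∈ box L (j + 1) x (min ε₁ ε₂) := by
          intro i
          rcases eq_or_ne i J with rfl | hne
          · rw [Function.update_self]
            exact ⟨fun _ => abs_le.2 ⟨hb, hb'⟩, fun h => absurd h (Nat.not_succ_le_self j)⟩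
          · rw [Function.update_of_ne hne]
            exact hy.1 i
        refine ⟨⟨hbox, ?_⟩, hbox, ?_⟩
        · simpa using hab
        · simpa using hbc
      · rw [← le_antisymm hy.1.2.2 hy.2.2.1, Function.update_eq_self]

end Cube

/-- A section on the whole space that is correct on a ball. -/
theorem exists_global {Q : Type*} [NormedAddCommGroup Q] [NormedSpace ℝ Q]
    [FiniteDimensional ℝ Q] {R : A → Q → Q → Prop} (G : IsGroupoid R) (z : Q) (r : ℝ) :
    ∃ σ : Q → A, Continuous σ ∧ (∀ x, ∃ y, R (σ x) z y) ∧ ∀ x, ‖x‖ ≤ r → R (σ x) z x := by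
  let φ : (Fin (Module.finrank ℝ Q) → ℝ) ≃L[ℝ] Q :=
    (ContinuousLinearEquiv.ofFinrankEq (by simp))
  have G' : IsGroupoid (fun (h : A) a b => R h (φ a) (φ b)) :=
    { unit := fun h => G.unit h
      one := fun x => G.one _
      mul := fun h1 h2 => G.mul h1 h2
      inv := fun h => G.inv h
      closed := fun t1 hu t2 t3 H => G.closed t1 hu ((φ.continuous.tendsto _).comp t2)
        ((φ.continuous.tendsto _).comp t3) H
      trans := fun x y => G.trans _ _ }
  let L : ℝ := ‖(φ.symm : Q →L[ℝ] (Fin (Module.finrank ℝ Q) → ℝ))‖ * |r|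
  have hL : 0 ≤ L := by positivity
  obtain ⟨ε, -, σ, h1, h2⟩ := sct_box G' (φ.symm z) hL (Module.finrank ℝ Q) 0
  let c : Q → Fin (Module.finrank ℝ Q) → ℝ := fun x i => max (-L) (min L (φ.symm x i))
  have hc : Continuous c := by fun_prop
  have hc1 : ∀ x, c x ∈ box L (Module.finrank ℝ Q) 0 ε := fun x i =>
    ⟨fun _ => abs_le.2 ⟨le_max_left _ _, max_le (by linarith) (min_le_left _ _)⟩,
      fun h => absurd i.isLt (by omega)⟩
  refine ⟨fun x => σ (c x), h1.comp_continuous hc hc1, fun x => ⟨φ (c x), ?_⟩, fun x hx => ?_⟩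
  · simpa using h2 _ (hc1 x)
  · have e : c x = φ.symm x := by
      funext i
      have a1 : |φ.symm x i| ≤ L := by
        refine (norm_le_pi_norm (φ.symm x) i).trans ?_
        refine ((φ.symm : Q →L[ℝ] (Fin (Module.finrank ℝ Q) → ℝ)).le_opNorm x).trans ?_
        exact mul_le_mul_of_nonneg_left (hx.trans (le_abs_self r)) (norm_nonneg _)
      have a2 := abs_le.1 a1
      simp only [c, min_eq_right a2.2, max_eq_right a2.1]
    have := h2 _ (hc1 x)
    simpa [e] using this

end Pool.Agent.Lib.MP_2f98a8_gt.Ev
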