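import Mathlib
import Pool.Agent.Lib.MP_2f98a8_gt.Ev.Blow

/-!
A cone with a boundary-transitive, non-compact automorphism group is quadratic.
-/

namespace Pool.Agent.Lib.MP_2f98a8_gt.Ev

open Set Filter Topology

variable {V : Type*} [NormedAddCommGroup V] [NormedSpace ℝ V]

/-- The boundary of the cone lies on a quadric. -/
def IsQuad (F : V → ℝ) : Prop :=
  ∃ β : V →ₗ[ℝ] V →ₗ[ℝ] ℝ, (∃ y, β y y ≠ 0) ∧ ∀ y, F y = 0 → β y y = 0

/-- Every boundary ray is touched by round cones from both sides. -/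
def Good (F : V → ℝ) : Prop :=
  ∀ w, F w = 0 → w ≠ 0 → ∃ (η : V →L[ℝ] ℝ) (d : V), η d = 1 ∧ Inner F w η ∧ Outer F w η

variable {F : V → ℝ} {e ξ ζ : V} {t θ η : V →L[ℝ] ℝ} {P : V →L[ℝ] V}

lemma Good.strict (G : Good F) {y y' : V} (hy : F y ≤ 0) (hy' : F y' ≤ 0) (h : F (y + y') = 0)
    (h0 : y + y' ≠ 0) : ∃ l : ℝ, y = l • (y + y') := by
  obtain ⟨η, -, -, -, O⟩ := G _ h h0
  have h1 := O.1
  rw [map_add] at h1
  exact O.line hy (by linarith [O.2.1 y hy, O.2.1 y' hy'])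

lemma Pkg.good (p : Pkg F e t) (T : Trans F)
    (h1 : ∃ ξ η, F ξ = 0 ∧ ξ ≠ 0 ∧ η e ≠ 0 ∧ Inner F ξ η)
    (h2 : ∃ ξ η, F ξ = 0 ∧ ξ ≠ 0 ∧ η e ≠ 0 ∧ Outer F ξ η) : Good F := by
  obtain ⟨ξ₁, η₁, a1, a2, a3, a4⟩ := h1
  obtain ⟨ξ₂, η₂, b1, b2, b3, b4⟩ := h2
  intro w hw w0
  obtain ⟨a, ha, ea⟩ := p.move T a1 a2 hw w0
  obtain ⟨b, hb, eb⟩ := p.move T b1 b2 hw w0
  have I := a4.map ha
  have O := b4.map hb
  rw [ea] at I
  rw [eb] at O
  obtain ⟨c1, c2⟩ := I.unique (d₀ := (η₁ e)⁻¹ • a e) (by simp [inv_app ha.unit, a3]) O.1 O.2.1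
  set c := (η₂.comp (Ring.inverse b)) ((η₁ e)⁻¹ • a e)
  have c3 : 0 < c := lt_of_le_of_ne c1 fun h => b3 (by
    have := c2 (b e)
    rw [← h, zero_mul] at this
    simpa [inv_app hb.unit] using this)
  refine ⟨_, (η₂ e)⁻¹ • b e, by simp [inv_app hb.unit, b3], ?_, O⟩
  obtain ⟨r, hr, h⟩ := I
  refine ⟨c * r, by positivity, fun d hd => h d ?_⟩
  rw [c2, mul_assoc] at hd
  exact lt_of_mul_lt_mul_left hd c3.le

variable [FiniteDimensional ℝ V]

lemma Blown.quad {g k : ℕ → V →L[ℝ] V} {ε : ℕ → ℝ} {k₀ : V →L[ℝ] V}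
    (B : Blown F ξ ζ θ η P g ε k k₀) (p : Pkg F e t) (T : Trans F) (G : Good F)
    (f : Frame ξ ζ θ η P) (In : Inner F ξ η) (Out : Outer F ξ η) (hg : ∀ᶠ n in U, Aut F (g n))
    (lim : Tendsto g U (𝓝 (θ.smulRight ξ))) (hξ : F ξ = 0) (hζ : F ζ = 0)
    (hθ : ∀ y, F y ≤ 0 → 0 ≤ θ y) : IsQuad F := by
  have ex : ∀ x, ∃ s : ℝ, F (ξ + P x + s • ζ) = 0 := by
    intro x
    obtain ⟨b, -, hb⟩ := In
    have c : Continuous fun s : ℝ => F (ξ + P x + s • ζ) := p.cont.comp (by fun_prop)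
    refine intermediate_value_univ (b * ‖P (k₀ (P x))‖ ^ 2 + 1) (-1) c ⟨?_, ?_⟩
    · refine (B.inside p f hb hg ?_ ?_).le
      · simp [f.a, f.b, f.θP]
      · simp [f.a, f.b, f.c, f.d, f.θP, f.ηP, B.kξ, B.kζ, f.Pξ, f.Pζ]
    · by_contra h
      have := Out.2.1 _ (not_le.1 h).le
      simp only [map_add, map_smul, f.c, f.d, f.ηP, smul_eq_mul] at this
      linarith
  choose φ hφ using ex
  have un0 : ∀ y (s : ℝ), θ y = 1 → F y = 0 → F (s • ζ + y) = 0 → 0 ≤ s → s = 0 := by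
    intro y s h1 h2 h3 hs
    obtain ⟨l, hl⟩ := G.strict (p.smul_le hs hζ.le) h2.le h3 (fun h => by
      simpa [h1, f.b] using congrArg θ h)
    have h4 : l = 0 := by simpa [h1, f.b] using (congrArg θ hl).symm
    simpa [h4, f.d] using congrArg η hl
  have un : ∀ x (s : ℝ), F (ξ + P x + s • ζ) = 0 → s = φ x := by
    intro x s hs
    rcases le_total s (φ x) with h | h
    · have := un0 _ (φ x - s) (by simp [f.a, f.b, f.θP]) hs (by
        convert hφ x using 2; module) (sub_nonneg.2 h)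
      linarith
    · have := un0 _ (s - φ x) (by simp [f.a, f.b, f.θP]) (hφ x) (by
        convert hs using 2; module) (sub_nonneg.2 h)
      linarith
  choose l l1 l2 l3 using fun x => B.translate p T f In Out hg lim hξ hζ.le (hφ x)
    (by simp [f.a, f.b, f.θP])
  have key : ∀ x y, φ (x + y) = φ x + φ y + l x y := by
    intro x y
    refine (un _ _ ?_).symm
    have := l3 x _ (hφ y) (by simp [f.a, f.b, f.θP])
    convert this using 2
    simp only [map_add, map_smul, l1, l2, f.dec y, map_sub, smul_zero, sub_zero, zero_add, add_zero]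
    module
  have sym : ∀ x y, l x y = l y x := fun x y => by
    have := key x y
    rw [add_comm x y, key] at this
    linarith
  let β : V →ₗ[ℝ] V →ₗ[ℝ] ℝ := LinearMap.mk₂ ℝ (fun x y => l x y)
    (fun x x' y => by rw [sym, map_add, sym y, sym y]) (fun c x y => by rw [sym, map_smul, sym y])
    (fun x y y' => map_add _ _ _) (fun c x y => map_smul _ _ _)
  have lβ : ∀ x y, l x y = β x y := fun _ _ => rfl
  let ψ : V →+ ℝ := AddMonoidHom.mk' (fun x => φ x - β x x / 2) fun x y => by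
    have := sym x y
    simp only [key, lβ, map_add, LinearMap.add_apply] at this ⊢
    linarith
  have ψ0 : ∀ x, 0 ≤ ψ x := by
    intro x
    refine le_of_tendsto (x := atTop) (tendsto_const_div_atTop_nhds_zero_nat (-(β x x / 2))) ?_
    filter_upwards [eventually_gt_atTop 0] with n hn
    have n0 : (0 : ℝ) < n := by exact_mod_cast hn
    have e1 : x = n • ((n : ℝ)⁻¹ • x) := by
      rw [← Nat.cast_smul_eq_nsmul ℝ, smul_smul, mul_inv_cancel₀ n0.ne', one_smul]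
    have e2 : 0 ≤ φ ((n : ℝ)⁻¹ • x) := by
      simpa [f.c, f.d, f.ηP] using Out.2.1 _ (hφ ((n : ℝ)⁻¹ • x)).le
    have e3 : ψ x = n * (φ ((n : ℝ)⁻¹ • x) - (n : ℝ)⁻¹ * ((n : ℝ)⁻¹ * β x x) / 2) := by
      conv_lhs => rw [e1, map_nsmul]
      simp [ψ]
    have e4 : (n : ℝ) * ((n : ℝ)⁻¹ * ((n : ℝ)⁻¹ * β x x) / 2) = β x x / 2 / n := by field_simp
    rw [e3, mul_sub, e4, neg_div]
    linarith [mul_nonneg n0.le e2]
  have ψ1 : ∀ x, φ x = β x x / 2 := fun x => by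
    have h1 := ψ0 x
    have h2 := ψ0 (-x)
    rw [map_neg] at h2
    have h3 : ψ x = 0 := by linarith
    exact sub_eq_zero.1 h3
  refine ⟨LinearMap.mk₂ ℝ (fun x y => 2 * θ x * η y - β x y) (fun x x' y => by simp; ring)
    (fun c x y => by simp; ring) (fun x y y' => by simp; ring) (fun c x y => by simp; ring),
    ⟨ξ + ζ, ?_⟩, fun y hy => ?_⟩
  · simp [← lβ, l1, l2, f.a, f.b, f.c, f.d]
  · simp only [LinearMap.mk₂_apply]
    rcases (hθ y hy.le).eq_or_lt with h | h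
    · obtain ⟨η', d, h1, I, O⟩ := G ζ hζ (fun h => by simpa [h] using f.d)
      obtain ⟨-, c2⟩ := I.unique h1 f.b hθ
      have c3 : θ d ≠ 0 := fun h => by simpa [h, f.a] using c2 ξ
      obtain ⟨c, hc⟩ := O.line hy.le (by simpa [← h, c3] using c2 y)
      have : β y y = 0 := by
        rw [← lβ]
        conv_lhs => rw [hc]
        rw [map_smul, l2, smul_zero]
      rw [this, ← h]
      simp
    · have h1 := un ((θ y)⁻¹ • y) (η ((θ y)⁻¹ • y)) (by
        have := f.sum ((θ y)⁻¹ • y)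
        rw [map_smul θ, smul_eq_mul, inv_mul_cancel₀ h.ne', one_smul] at this
        rw [this]
        exact p.smul_eq (inv_pos.2 h).le hy)
      rw [ψ1] at h1
      simp only [map_smul, smul_eq_mul, LinearMap.smul_apply] at h1
      field_simp at h1
      linarith

theorem quad_of_degenerate (p : Pkg F e t) (T : Trans F) (G : Good F)
    (hd : 1 < Module.finrank ℝ V) {S : ℕ → V →L[ℝ] V} {S₀ : V →L[ℝ] V}
    (hS : ∀ n, Aut F (S n)) (lim : Tendsto S U (𝓝 S₀)) (h0 : S₀ ≠ 0) {z : V} (z0 : z ≠ 0)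
    (hz : S₀ z = 0) : IsQuad F := by
  have : CompleteSpace V := FiniteDimensional.complete ℝ V
  have SB : ∀ y, F y ≤ 0 → F (S₀ y) = 0 := by
    intro y hy
    obtain ⟨s, hs⟩ := p.exit hy z0
    have := p.lim_eq (tapp lim (tendsto_const_nhds (x := y + s • z)))
      (Eventually.of_forall fun n => ((hS n).bd _).2 hs)
    simpa [hz] using this
  obtain ⟨y₁, hy₁, ξ0⟩ : ∃ y, F y ≤ 0 ∧ S₀ y ≠ 0 := by
    by_contra h
    push Not at h
    exact h0 (ContinuousLinearMap.ext (p.ind h fun x y hx hy => by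
      simpa [sub_eq_zero] using hx.trans hy.symm))
  set ξ₀ := S₀ y₁ with hξ₀
  have tξ : 0 < t ξ₀ := (norm_pos_iff.2 ξ0).trans_le (p.prop _ (SB _ hy₁).le)
  have r1 : ∀ y, ∃ c : ℝ, S₀ y = c • ξ₀ := by
    refine p.ind (fun y hy => ?_) ?_
    · have a1 : F (ξ₀ + S₀ y) = 0 := by rw [← map_add]; exact SB _ (p.add_le hy₁ hy)
      obtain ⟨l, hl⟩ := G.strict (SB _ hy₁).le (SB _ hy).le a1 (fun h => by
        have := congrArg t h
        rw [map_add, map_zero] at this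
        linarith [(norm_nonneg _).trans (p.prop _ (SB _ hy).le)])
      have l0 : l ≠ 0 := fun h => ξ0 (by simpa [h] using hl)
      refine ⟨l⁻¹ - 1, ?_⟩
      rw [sub_smul, one_smul, eq_sub_iff_add_eq, add_comm]
      conv_rhs => rw [hξ₀, hl, smul_smul, inv_mul_cancel₀ l0, one_smul]
    · rintro x y ⟨c, hc⟩ ⟨c', hc'⟩
      exact ⟨c - c', by rw [map_sub, hc, hc', sub_smul]⟩
  let θ : V →L[ℝ] ℝ := (t ξ₀)⁻¹ • t.comp S₀
  have r2 : ∀ y, S₀ y = θ y • ξ₀ := fun y => by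
    obtain ⟨c, hc⟩ := r1 y
    have : θ y = c := by simp [θ, hc]; field_simp
    rw [this, hc]
  have hθ : ∀ y, F y ≤ 0 → 0 ≤ θ y := fun y hy =>
    mul_nonneg (inv_pos.2 tξ).le ((norm_nonneg _).trans (p.prop _ (SB _ hy).le))
  obtain ⟨w, hw, hw'⟩ : ∃ w, F w = 0 ∧ ∀ c : ℝ, c • ξ₀ ≠ w := by
    by_contra h
    push Not at h
    refine absurd (finrank_le_one ξ₀ (p.ind (fun y hy => ?_) ?_)) (not_le.2 hd)
    · obtain ⟨s, hs⟩ := p.exit hy ξ0
      obtain ⟨c, hc⟩ := h _ hs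
      exact ⟨c - s, by rw [sub_smul, hc]; abel⟩
    · rintro x y ⟨c, hc⟩ ⟨c', hc'⟩
      exact ⟨c - c', by rw [sub_smul, hc, hc']⟩
  have w0 : w ≠ 0 := fun h => hw' 0 (by simp [h])
  have : ProperSpace V := FiniteDimensional.proper ℝ V
  obtain ⟨ζ₀, ζ1, ζl⟩ := ucomp (isCompact_sphere (0 : V) 1)
    (f := fun n => ‖Ring.inverse (S n) w‖⁻¹ • Ring.inverse (S n) w)
    (Eventually.of_forall fun n => by
      have := norm_ne_zero_iff.2 (unit_ne (hS n).inv.unit w0)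
      simp [norm_smul, this])
  have ζ0 : ζ₀ ≠ 0 := fun h => by simp [h] at ζ1
  have ζB : F ζ₀ = 0 := p.lim_eq ζl (Eventually.of_forall fun n =>
    p.smul_eq (by positivity) (((hS n).inv.bd w).2 hw))
  have θζ : θ ζ₀ = 0 := by
    have a1 : S₀ ζ₀ ∈ Submodule.span ℝ {w} :=
      (Submodule.closed_of_finiteDimensional _).mem_of_tendsto (tapp lim ζl)
        (Eventually.of_forall fun n => by
          rw [map_smul, app_inv (hS n).unit]
          exact Submodule.smul_mem _ _ (Submodule.mem_span_singleton_self w))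
    obtain ⟨c, hc⟩ := Submodule.mem_span_singleton.1 a1
    rw [r2] at hc
    by_contra h
    have c0 : c ≠ 0 := fun h' => by
      rw [h', zero_smul, eq_comm, smul_eq_zero] at hc
      tauto
    exact hw' (c⁻¹ * θ ζ₀) (by rw [mul_smul, ← hc, smul_smul, inv_mul_cancel₀ c0, one_smul])
  obtain ⟨s, hξ⟩ := p.exit hy₁ ζ0
  set ξ := y₁ + s • ζ₀ with eξ
  have θξ : θ ξ = 1 := by
    rw [eξ, map_add, map_smul, θζ, smul_zero, add_zero]
    exact inv_mul_cancel₀ tξ.ne'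
  have ξ1 : ξ ≠ 0 := fun h => by simp [h] at θξ
  have Sξ : S₀ ξ = ξ₀ := by rw [r2, θξ, one_smul]
  obtain ⟨a, a₀, -, a2, a3, a4⟩ := p.movers T (v := fun n => S n ξ) (w := fun _ => ξ)
    (Sξ ▸ tapp lim tendsto_const_nhds) tendsto_const_nhds ξ0 ξ1
    (Eventually.of_forall fun n => ((hS n).bd _).2 hξ) (Eventually.of_forall fun _ => hξ)
  have lim' : Tendsto (fun n => a n * S n) U (𝓝 (θ.smulRight ξ)) := by
    convert a2.mul lim using 2
    ext y
    rw [mul_apply_eq_comp, r2, map_smul, a3]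
    rfl
  have hg : ∀ᶠ n in U, Aut F (a n * S n) ∧ (a n * S n) ξ = ξ :=
    a4.mono fun n hn => ⟨hn.1.mul (hS n), hn.2⟩
  obtain ⟨η, -, -, I, O⟩ := G ξ hξ ξ1
  have ηζ : 0 < η ζ₀ := lt_of_le_of_ne (O.2.1 _ ζB.le) fun h => by
    obtain ⟨c, hc⟩ := O.line ζB.le h.symm
    have : c = 0 := by simpa [θζ, θξ] using (congrArg θ hc).symm
    exact ζ0 (by simpa [this] using hc)
  have f : Frame ξ ((η ζ₀)⁻¹ • ζ₀) θ η (1 - θ.smulRight ξ - η.smulRight ((η ζ₀)⁻¹ • ζ₀)) :=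
    ⟨θξ, by rw [map_smul, θζ, smul_zero], O.1, by simp [ηζ.ne'], fun y => rfl⟩
  have hζ := p.smul_eq (inv_pos.2 ηζ).le ζB
  obtain ⟨ε, k, k₀, B⟩ := exists_blown p f I O hg lim' hζ.le
  exact B.quad p T G f I O (hg.mono fun n hn => hn.1) lim' hξ hζ hθ

end Pool.Agent.Lib.MP_2f98a8_gt.Ev
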