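import Mathlib
import Pool.Agent.Lib.MP_2f98a8_gt.Ev.Quad

/-!
A proper cone with a boundary-transitive automorphism group is quadratic.
-/

namespace Pool.Agent.Lib.MP_2f98a8_gt.Ev

open Set Filter Topology

lemma fixed_point {X ι : Type*} [NormedAddCommGroup X] [NormedSpace ℝ X] [FiniteDimensional ℝ X]
    {S : Set ι} (hS : S.Nonempty) (ρ : ι → X →ₗ[ℝ] X) {M : ℝ}
    (up : ∀ g ∈ S, ∀ x, ‖ρ g x‖ ≤ M * ‖x‖) (lo : ∀ g ∈ S, ∀ x, ‖x‖ ≤ M * ‖ρ g x‖)
    (mul : ∀ g ∈ S, ∀ g' ∈ S, ∃ g'' ∈ S, ∀ x, ρ g (ρ g' x) = ρ g'' x)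
    {D : Set X} (dc : IsClosed D) (dv : Convex ℝ D) {x₀ : X} (h0 : x₀ ∈ D)
    (inv : ∀ g ∈ S, ∀ x ∈ D, ρ g x ∈ D) : ∃ x ∈ D, ∀ g ∈ S, ρ g x = x := by
  have : Nonempty S := hS.to_subtype
  let j := toEuclidean (E := X)
  obtain ⟨K, K0, up', lo'⟩ : ∃ K : ℝ, 0 < K ∧ (∀ g ∈ S, ∀ x, ‖j (ρ g x)‖ ≤ K * ‖x‖) ∧
      ∀ g ∈ S, ∀ x, ‖x‖ ≤ K * ‖j (ρ g x)‖ := by
    set a := ‖j.toContinuousLinearMap‖
    set b := ‖j.symm.toContinuousLinearMap‖
    have a0 : 0 ≤ a := norm_nonneg _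
    have b0 : 0 ≤ b := norm_nonneg _
    refine ⟨(a + b) * |M| + 1, by positivity, fun g hg x => ?_, fun g hg x => ?_⟩
    · have h1 : ‖j (ρ g x)‖ ≤ a * ‖ρ g x‖ := j.toContinuousLinearMap.le_opNorm _
      have h2 : ‖ρ g x‖ ≤ |M| * ‖x‖ :=
        (up g hg x).trans (mul_le_mul_of_nonneg_right (le_abs_self M) (norm_nonneg _))
      have h3 := mul_le_mul_of_nonneg_left h2 a0
      have h4 : 0 ≤ b * |M| * ‖x‖ := by positivity
      nlinarith [norm_nonneg x]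
    · have h1 : ‖ρ g x‖ ≤ b * ‖j (ρ g x)‖ := by
        simpa using j.symm.toContinuousLinearMap.le_opNorm (j (ρ g x))
      have h2 : ‖x‖ ≤ |M| * ‖ρ g x‖ :=
        (lo g hg x).trans (mul_le_mul_of_nonneg_right (le_abs_self M) (norm_nonneg _))
      have h3 := mul_le_mul_of_nonneg_left h1 (abs_nonneg M)
      have h4 : 0 ≤ a * |M| * ‖j (ρ g x)‖ := by positivity
      nlinarith [norm_nonneg (j (ρ g x))]
  let ψ : X → ℝ := fun x => ⨆ g : S, ‖j (ρ g x)‖
  have le : ∀ g ∈ S, ∀ x, ‖j (ρ g x)‖ ≤ ψ x := fun g hg x =>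
    le_ciSup (f := fun g : S => ‖j (ρ g x)‖) ⟨K * ‖x‖, by rintro _ ⟨g, rfl⟩; exact up' _ g.2 x⟩
      ⟨g, hg⟩
  have lip : ∀ x y, ψ x ≤ ψ y + K * dist x y := fun x y => ciSup_le fun g => by
    have e : j (ρ g x) = j (ρ g y) + j (ρ g (x - y)) := by simp
    rw [e, dist_eq_norm]
    exact (norm_add_le _ _).trans (add_le_add (le _ g.2 y) (up' _ g.2 _))
  have cont : Continuous ψ := (LipschitzWith.of_le_add_mul' K lip).continuous
  obtain ⟨g₀, hg₀⟩ := hS
  have : ProperSpace X := FiniteDimensional.proper ℝ X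
  obtain ⟨x, hx, hm⟩ := cont.continuousOn.exists_isMinOn' dc h0 (by
    refine Eventually.filter_mono inf_le_left ?_
    filter_upwards [(tendsto_norm_cocompact_atTop (E := X)).eventually_ge_atTop (K * ψ x₀)] with y hy
    exact le_of_mul_le_mul_left
      (hy.trans ((lo' _ hg₀ y).trans (mul_le_mul_of_nonneg_left (le _ hg₀ y) K0.le))) K0)
  refine ⟨x, hx, fun g hg => ?_⟩
  have m1 : ψ x ≤ ψ ((1 / 2 : ℝ) • x + (1 / 2 : ℝ) • ρ g x) :=
    hm (dv hx (inv g hg x hx) (by norm_num) (by norm_num) (by norm_num))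
  have p0 : 0 ≤ ψ x := (norm_nonneg _).trans (le _ hg x)
  set δ := (‖x - ρ g x‖ / K) ^ 2 / 4 with hδ
  have m2 : ψ ((1 / 2 : ℝ) • x + (1 / 2 : ℝ) • ρ g x) ≤ √(ψ x ^ 2 - δ) := ciSup_le fun a => by
    refine Real.le_sqrt_of_sq_le ?_
    obtain ⟨a', ha', e'⟩ := mul _ a.2 g hg
    have b1 := le _ a.2 x
    have b2 := le _ ha' x
    rw [← e'] at b2
    have b3 : ‖x - ρ g x‖ / K ≤ ‖j (ρ a x) - j (ρ a (ρ g x))‖ := by
      rw [div_le_iff₀' K0, ← map_sub, ← map_sub]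
      exact lo' _ a.2 _
    have b4 := parallelogram_law_with_norm ℝ (j (ρ a x)) (j (ρ a (ρ g x)))
    have b5 : ‖j (ρ a ((1 / 2 : ℝ) • x + (1 / 2 : ℝ) • ρ g x))‖ =
        1 / 2 * ‖j (ρ a x) + j (ρ a (ρ g x))‖ := by
      rw [← smul_add, map_smul, map_smul, norm_smul, map_add, map_add]
      norm_num
    have b6 := pow_le_pow_left₀ (norm_nonneg _) b1 2
    have b7 := pow_le_pow_left₀ (norm_nonneg _) b2 2
    have b8 := pow_le_pow_left₀ (by positivity) b3 2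
    rw [b5, hδ]
    nlinarith
  have m3 : δ ≤ 0 := by
    rcases p0.eq_or_lt with h | h
    · have := (lo' _ hg₀ x).trans (mul_le_mul_of_nonneg_left (le _ hg₀ x) K0.le)
      rw [← h, mul_zero] at this
      have x0 : x = 0 := norm_le_zero_iff.1 this
      simp [hδ, x0]
    · have := (Real.le_sqrt' h).1 (m1.trans m2)
      linarith
  have m4 : ‖x - ρ g x‖ / K = 0 := by
    have : (‖x - ρ g x‖ / K) ^ 2 = 0 := le_antisymm (by linarith) (by positivity)
    exact pow_eq_zero_iff two_ne_zero |>.1 this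
  rw [div_eq_zero_iff, norm_eq_zero, sub_eq_zero] at m4
  exact (m4.resolve_right K0.ne').symm

variable {V : Type*} [NormedAddCommGroup V] [InnerProductSpace ℝ V] [FiniteDimensional ℝ V]
  {F : V → ℝ} {e : V} {t : V →L[ℝ] ℝ}

omit [FiniteDimensional ℝ V] in
lemma det_mul' (g h : V →L[ℝ] V) : (g * h).det = g.det * h.det :=
  map_mul LinearMap.det (g : V →ₗ[ℝ] V) (h : V →ₗ[ℝ] V)

lemma det_smul' (c : ℝ) (g : V →L[ℝ] V) : (c • g).det = c ^ Module.finrank ℝ V * g.det :=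
  LinearMap.det_smul c (g : V →ₗ[ℝ] V)

omit [FiniteDimensional ℝ V] in
lemma det_inv' {g : V →L[ℝ] V} (hg : IsUnit g) : g.det * (Ring.inverse g).det = 1 := by
  rw [← det_mul', Ring.mul_inverse_cancel _ hg]
  exact map_one LinearMap.det

theorem quad_of_bounded (p : Pkg F e t) (T : Trans F) (hd : 1 < Module.finrank ℝ V) {v : V}
    (hv : F v = 0) (v0 : v ≠ 0) {M : ℝ} (hM : ∀ g, Aut F g → |g.det| = 1 → ‖g‖ ≤ M) :
    IsQuad F := by
  let S : Set (V →L[ℝ] V) := {g | Aut F g ∧ |g.det| = 1}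
  have S1 : (1 : V →L[ℝ] V) ∈ S := ⟨Aut.one, by
    rw [show (1 : V →L[ℝ] V).det = 1 from map_one LinearMap.det, abs_one]⟩
  have Sm : ∀ g ∈ S, ∀ h ∈ S, g * h ∈ S := fun g hg h hh =>
    ⟨hg.1.mul hh.1, by rw [det_mul', abs_mul, hg.2, hh.2, one_mul]⟩
  have Si : ∀ g ∈ S, Ring.inverse g ∈ S := fun g hg => ⟨hg.1.inv, by
    have := congrArg abs (det_inv' hg.1.unit)
    rwa [abs_mul, hg.2, one_mul, abs_one] at this⟩
  have M0 : 0 ≤ M := (norm_nonneg _).trans (hM 1 S1.1 S1.2)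
  have up : ∀ g ∈ S, ∀ x, ‖g x‖ ≤ M * ‖x‖ := fun g hg x => g.le_of_opNorm_le (hM g hg.1 hg.2) x
  have lo : ∀ g ∈ S, ∀ x, ‖x‖ ≤ M * ‖g x‖ := fun g hg x => by
    simpa [inv_app hg.1.unit] using up _ (Si g hg) (g x)
  obtain ⟨q, hq, qf⟩ := fixed_point (X := V) ⟨1, S1⟩ (fun g => (g : V →ₗ[ℝ] V)) up lo
    (fun g hg h hh => ⟨g * h, Sm g hg h hh, fun x => rfl⟩)
    (D := {y | ∀ g ∈ S, ‖v‖ ≤ M * t (g y)}) (x₀ := v)
    (by
      simp only [ofPred_forall]
      exact isClosed_iInter fun g => isClosed_iInter fun _ =>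
        isClosed_le continuous_const (by fun_prop))
    (fun x hx y hy a b ha hb hab g hg => by
      have h1 := mul_le_mul_of_nonneg_left (hx g hg) ha
      have h2 := mul_le_mul_of_nonneg_left (hy g hg) hb
      have h3 : ‖v‖ = a * ‖v‖ + b * ‖v‖ := by rw [← add_mul, hab, one_mul]
      simp only [map_add, map_smul, smul_eq_mul]
      linarith)
    (fun g hg => (lo g hg v).trans
      (mul_le_mul_of_nonneg_left (p.prop _ ((hg.1.bd v).2 hv).le) M0))
    (fun g hg x hx h hh => hx (h * g) (Sm h hh g hg))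
  have q0 : q ≠ 0 := fun h => by
    have := hq 1 S1
    simp [h, v0] at this
  let ρ : (V →L[ℝ] V) → (V →L[ℝ] V →L[ℝ] ℝ) →ₗ[ℝ] (V →L[ℝ] V →L[ℝ] ℝ) := fun g =>
    { toFun := fun β => β.bilinearComp g g
      map_add' := fun _ _ => by ext; simp
      map_smul' := fun _ _ => by ext; simp }
  have ρa : ∀ g β x y, ρ g β x y = β (g x) (g y) := fun _ _ _ _ => rfl
  have up2 : ∀ g ∈ S, ∀ β, ‖ρ g β‖ ≤ M ^ 2 * ‖β‖ := fun g hg β =>
    ContinuousLinearMap.opNorm_le_bound₂ _ (by positivity) fun x y => by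
      rw [ρa]
      calc ‖β (g x) (g y)‖ ≤ ‖β‖ * ‖g x‖ * ‖g y‖ := β.le_opNorm₂ _ _
        _ ≤ ‖β‖ * (M * ‖x‖) * (M * ‖y‖) := by gcongr; exacts [up g hg x, up g hg y]
        _ = _ := by ring
  obtain ⟨β, hβ, βf⟩ := fixed_point (X := V →L[ℝ] V →L[ℝ] ℝ) ⟨1, S1⟩ ρ up2
    (fun g hg β => by
      have : ρ (Ring.inverse g) (ρ g β) = β := by ext x y; simp [ρa, app_inv hg.1.unit]
      simpa [this] using up2 _ (Si g hg) (ρ g β))
    (fun g hg h hh => ⟨h * g, Sm h hh g hg, fun x => rfl⟩)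
    (D := {β | ∀ g ∈ S, ∀ y, ‖y‖ ^ 2 ≤ M ^ 2 * β (g y) (g y)}) (x₀ := innerSL ℝ)
    (by
      simp only [ofPred_forall]
      exact isClosed_iInter fun g => isClosed_iInter fun _ => isClosed_iInter fun y =>
        isClosed_le continuous_const (by fun_prop))
    (fun x hx y hy a b ha hb hab g hg z => by
      have h1 := mul_le_mul_of_nonneg_left (hx g hg z) ha
      have h2 := mul_le_mul_of_nonneg_left (hy g hg z) hb
      have h3 : ‖z‖ ^ 2 = a * ‖z‖ ^ 2 + b * ‖z‖ ^ 2 := by rw [← add_mul, hab, one_mul]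
      simp only [add_apply, smul_apply, smul_eq_mul]
      linarith)
    (fun g hg y => by
      rw [innerSL_apply_apply, real_inner_self_eq_norm_sq, ← mul_pow]
      exact pow_le_pow_left₀ (norm_nonneg _) (lo g hg y) 2)
    (fun g hg x hx h hh y => hx (g * h) (Sm g hg h hh) y)
  have βp : ∀ y, y ≠ 0 → β y y ≠ 0 := fun y hy h => by
    have := hβ 1 S1 y
    simp [h, hy] at this
  have βi : ∀ g ∈ S, ∀ x y, β (g x) (g y) = β x y := fun g hg x y => by rw [← ρa, βf g hg]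
  refine ⟨LinearMap.mk₂ ℝ (fun x y => β v v * (β q x * β q y) - β q v ^ 2 * β x y)
    (fun x x' y => by simp; ring) (fun c x y => by simp; ring) (fun x y y' => by simp; ring)
    (fun c x y => by simp; ring), ?_, fun y hy => ?_⟩
  · simp only [LinearMap.mk₂_apply]
    by_contra h
    push Not at h
    obtain ⟨y, hy, y0⟩ := Submodule.exists_mem_ne_zero_of_ne_bot
      (LinearMap.ker_ne_bot_of_finrank_lt (f := (β q : V →ₗ[ℝ] ℝ)) (by simpa using hd))
    have h1 : β q y = 0 := hy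
    have h2 : β q v = 0 := by simpa [h1, βp y y0] using h y
    simpa [h2, βp v v0, βp q q0] using h q
  · simp only [LinearMap.mk₂_apply]
    rcases eq_or_ne y 0 with rfl | y0
    · simp
    obtain ⟨a, ha, ea⟩ := p.move T hv v0 hy y0
    have d0 : 0 < |a.det| := abs_pos.2 (left_ne_zero_of_mul_eq_one (det_inv' ha.unit))
    set c := (|a.det|⁻¹) ^ ((Module.finrank ℝ V : ℝ)⁻¹) with hc
    have c0 : 0 < c := Real.rpow_pos_of_pos (inv_pos.2 d0) _
    have hS : c • a ∈ S := ⟨ha.smul p c0, by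
      rw [det_smul', abs_mul, abs_of_pos (pow_pos c0 _), hc,
        Real.rpow_inv_natCast_pow (inv_pos.2 d0).le (by omega), inv_mul_cancel₀ d0.ne']⟩
    have e1 : (c • a) v = c • y := by rw [smul_apply, ea]
    have e2 := βi _ hS v v
    have e3 := βi _ hS q v
    rw [show (c • a) q = q from qf _ hS] at e3
    rw [e1] at e2 e3
    simp only [map_smul, smul_apply, smul_eq_mul] at e2 e3
    rw [← e2, ← e3]
    ring

theorem quad_of_trans (p : Pkg F e t) (T : Trans F) (G : Good F) (hd : 1 < Module.finrank ℝ V)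
    {v : V} (hv : F v = 0) (v0 : v ≠ 0) : IsQuad F := by
  by_cases h : ∃ M : ℝ, ∀ g, Aut F g → |g.det| = 1 → ‖g‖ ≤ M
  · obtain ⟨M, hM⟩ := h
    exact quad_of_bounded p T hd hv v0 hM
  push Not at h
  choose g g1 g2 g3 using fun n : ℕ => h (n + 1)
  have g0 : ∀ n, 0 < ‖g n‖ := fun n => lt_trans (by positivity) (g3 n)
  have : ProperSpace (V →L[ℝ] V) := FiniteDimensional.proper ℝ _
  obtain ⟨S₀, s1, sl⟩ := ucomp (isCompact_sphere (0 : V →L[ℝ] V) 1) (f := fun n => ‖g n‖⁻¹ • g n)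
    (Eventually.of_forall fun n => by simp [norm_smul, (g0 n).ne'])
  have d0 : S₀.det = 0 := by
    have t1 := ((ContinuousLinearMap.continuous_det.tendsto S₀).comp sl).abs
    have t2 : Tendsto (fun n => ‖g n‖⁻¹) U (𝓝 0) :=
      (tendsto_atTop_mono (fun n => by linarith [g3 n])
        tendsto_natCast_atTop_atTop).inv_tendsto_atTop.mono_left Nat.hyperfilter_le_atTop
    have t3 := t2.pow (Module.finrank ℝ V)
    rw [zero_pow (by omega)] at t3
    refine abs_eq_zero.1 (tendsto_nhds_unique t1 (t3.congr fun n => ?_))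
    rw [Function.comp_apply, det_smul', abs_mul, g2, mul_one,
      abs_of_pos (pow_pos (inv_pos.2 (g0 n)) _)]
  obtain ⟨z, hz, z0⟩ := Submodule.exists_mem_ne_zero_of_ne_bot
    (LinearMap.det_eq_zero_iff_ker_ne_bot.1 d0)
  exact quad_of_degenerate p T G hd (fun n => (g1 n).smul p (inv_pos.2 (g0 n))) sl
    (fun h => by simp [h] at s1) z0 hz

end Pool.Agent.Lib.MP_2f98a8_gt.Ev
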