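import Mathlib
import Pool.Agent.Lib.MP_2f98a8_gt.Ev.Rigid

/-!
The cone over a convex body given by a gauge, and its double cone.
-/

namespace Pool.Agent.Lib.MP_2f98a8_gt.Ev

open Set Filter Topology
open scoped RealInnerProductSpace

section Abstract

variable {V : Type*} [NormedAddCommGroup V] [NormedSpace ℝ V] {F : V → ℝ} {e : V} {t : V →L[ℝ] ℝ}

/-- The double cone. -/
def DC (F : V → ℝ) (y : V) : Prop := F y = 0 ∨ F (-y) = 0

omit [NormedSpace ℝ V] in
lemma DC.neg_iff {y : V} : DC F (-y) ↔ DC F y := by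
  simp only [DC, neg_neg]
  exact or_comm

lemma Pkg.t_pos (p : Pkg F e t) {y : V} (hy : F y ≤ 0) (y0 : y ≠ 0) : 0 < t y :=
  (norm_pos_iff.2 y0).trans_le (p.prop y hy)

lemma Pkg.dc_ne (p : Pkg F e t) {y : V} (hy : DC F y) (y0 : y ≠ 0) : t y ≠ 0 := by
  rcases hy with h | h
  · exact (p.t_pos h.le y0).ne'
  · have := p.t_pos h.le (neg_ne_zero.2 y0)
    rw [map_neg] at this
    exact (neg_pos.1 this).ne

lemma Pkg.le_of_bd (p : Pkg F e t) {a : V →L[ℝ] V} (h : ∀ y, F y = 0 → F (a y) = 0) {w : V}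
    (hw : F w = 0) (w0 : w ≠ 0) {y : V} (hy : F y ≤ 0) : F (a y) ≤ 0 := by
  have c : Continuous fun s : ℝ => F (y - s • w) := p.cont.comp (by fun_prop)
  have tw := p.t_pos hw.le w0
  have s0 : (0 : ℝ) ≤ (|t y| + 1) / t w := by positivity
  obtain ⟨s, hs, es⟩ := intermediate_value_Icc s0 c.continuousOn
    (show (0 : ℝ) ∈ Icc _ _ from ⟨by simpa using hy, by
      by_contra h'
      have := (norm_nonneg _).trans (p.prop _ (not_le.1 h').le)
      rw [map_sub, map_smul, smul_eq_mul, div_mul_cancel₀ _ tw.ne'] at this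
      linarith [le_abs_self (t y)]⟩)
  have := p.add_le (h _ es).le (p.smul_le hs.1 (h _ hw).le)
  simpa using this

variable [FiniteDimensional ℝ V]

lemma Pkg.bd_of_dc (p : Pkg F e t) (hd : 2 < Module.finrank ℝ V) {a : V →L[ℝ] V} (hu : IsUnit a)
    (h : ∀ y, DC F y → DC F (a y)) {v : V} (hv : F v = 0) (v0 : v ≠ 0) (hav : F (a v) = 0)
    (y : V) (hy : F y = 0) : F (a y) = 0 := by
  by_contra hc
  have y0 : y ≠ 0 := fun h' => hc (by rw [h', map_zero, p.zero])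
  have h1 := p.t_pos hav.le (unit_ne hu v0)
  have h2 := p.t_pos ((h y (Or.inl hy)).resolve_left hc).le (neg_ne_zero.2 (unit_ne hu y0))
  have h3 := p.t_pos hv.le v0
  have h4 := p.t_pos hy.le y0
  obtain ⟨x, hx, x0⟩ := Submodule.exists_mem_ne_zero_of_ne_bot
    (LinearMap.ker_ne_bot_of_finrank_lt (f := ((t.prod (t.comp a) : V →L[ℝ] ℝ × ℝ) : V →ₗ[ℝ] ℝ × ℝ))
      (by simpa using hd))
  have x1 : t x = 0 := congrArg Prod.fst hx
  have x2 : t (a x) = 0 := congrArg Prod.snd hx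
  obtain ⟨s, hs⟩ := p.exit (p.add_le (p.smul_le h2.le hv.le) (p.smul_le h1.le hy.le)) x0
  refine p.dc_ne (h _ (Or.inl hs)) (unit_ne hu fun h' => ?_) ?_
  · have := congrArg t h'
    simp only [map_add, map_smul, x1, smul_eq_mul, map_zero] at this
    nlinarith [mul_pos h2 h3, mul_pos h1 h4]
  · simp only [map_add, map_smul, x2, smul_eq_mul, map_neg]
    ring

lemma Pkg.aut_of_dc (p : Pkg F e t) (hd : 2 < Module.finrank ℝ V) {a : V →L[ℝ] V} (hu : IsUnit a)
    (h : ∀ y, DC F y ↔ DC F (a y)) {v : V} (hv : F v = 0) (v0 : v ≠ 0) (hav : F (a v) = 0) :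
    Aut F a := by
  have h1 := p.bd_of_dc hd hu (fun y => (h y).1) hv v0 hav
  have h2 := p.bd_of_dc hd hu.ringInverse (fun y hy => by rwa [h, app_inv hu]) hav (unit_ne hu v0)
    (by rwa [inv_app hu])
  refine ⟨hu, fun y => ⟨fun hy => ?_, h1 y⟩, fun y => ⟨fun hy => ?_, p.le_of_bd h1 hv v0⟩⟩
  · simpa [inv_app hu] using h2 _ hy
  · simpa [inv_app hu] using p.le_of_bd h2 hv v0 hy

end Abstract

variable {V : Type*} [NormedAddCommGroup V] [InnerProductSpace ℝ V]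

/-- The component orthogonal to `e`. -/
def hor (e y : V) : V := y - ⟪e, y⟫ • e

/-- A gauge on the hyperplane orthogonal to `e`, extended constantly along `e`. -/
structure Gau (e : V) (N : V → ℝ) : Prop where
  he : ‖e‖ = 1
  cont : Continuous N
  add : ∀ x y, N (x + y) ≤ N x + N y
  smul : ∀ c : ℝ, 0 ≤ c → ∀ x, N (c • x) = c * N x
  vert : ∀ x (s : ℝ), N (x + s • e) = N x
  pos : ∀ x, ⟪e, x⟫ = 0 → x ≠ 0 → 0 < N x

/-- The defining function of the cone over the unit ball of the gauge. -/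
def cF (e : V) (N : V → ℝ) (y : V) : ℝ := N y - ⟪e, y⟫

variable {e : V} {N : V → ℝ}

lemma inner_ee (he : ‖e‖ = 1) : ⟪e, e⟫ = 1 := by rw [real_inner_self_eq_norm_sq, he]; norm_num

lemma inner_hor (he : ‖e‖ = 1) (y : V) : ⟪e, hor e y⟫ = 0 := by
  simp [hor, inner_sub_right, inner_smul_right, he]

lemma norm_hor (he : ‖e‖ = 1) (y : V) : ‖hor e y‖ ^ 2 = ‖y‖ ^ 2 - ⟪e, y⟫ ^ 2 := by
  rw [hor, norm_sub_sq_real, norm_smul, he, inner_smul_right, real_inner_comm]
  simp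
  ring

lemma Gau.hor_eq (g : Gau e N) (y : V) : N (hor e y) = N y := by
  rw [hor, sub_eq_add_neg, ← neg_smul, g.vert]

lemma Gau.bd (g : Gau e N) {x : V} (hx : ⟪e, x⟫ = 0) : cF e N (x + N x • e) = 0 := by
  rw [cF, g.vert, inner_add_right, inner_smul_right, hx, inner_ee g.he]
  ring

variable [FiniteDimensional ℝ V]

lemma Gau.bounds (g : Gau e N) (hd : 1 < Module.finrank ℝ V) :
    ∃ x x', (⟪e, x⟫ = 0 ∧ ‖x‖ = 1) ∧ (⟪e, x'⟫ = 0 ∧ ‖x'‖ = 1) ∧
      ∀ y, N x * ‖hor e y‖ ≤ N y ∧ N y ≤ N x' * ‖hor e y‖ := by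
  have : ProperSpace V := FiniteDimensional.proper ℝ V
  have hc : IsCompact {x : V | ⟪e, x⟫ = 0 ∧ ‖x‖ = 1} := by
    have := (isCompact_sphere (0 : V) 1).inter_left
      (isClosed_eq (by fun_prop) continuous_const : IsClosed {x : V | ⟪e, x⟫ = 0})
    convert this using 1
    ext x
    simp
  have nrm : ∀ y : V, y ≠ 0 → ⟪e, y⟫ = 0 → ‖y‖⁻¹ • y ∈ {x : V | ⟪e, x⟫ = 0 ∧ ‖x‖ = 1} :=
    fun y y0 hy => ⟨by rw [inner_smul_right, hy, mul_zero], by simp [norm_smul, y0]⟩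
  obtain ⟨z, hz, z0⟩ := Submodule.exists_mem_ne_zero_of_ne_bot
    (LinearMap.ker_ne_bot_of_finrank_lt (f := ((innerSL ℝ e : V →L[ℝ] ℝ) : V →ₗ[ℝ] ℝ))
      (by simpa using hd))
  obtain ⟨x, hx, h1⟩ := hc.exists_isMinOn ⟨_, nrm z z0 hz⟩ g.cont.continuousOn
  obtain ⟨x', hx', h2⟩ := hc.exists_isMaxOn ⟨_, nrm z z0 hz⟩ g.cont.continuousOn
  refine ⟨x, x', hx, hx', fun y => ?_⟩
  rw [← g.hor_eq y]
  rcases eq_or_ne (hor e y) 0 with h | h
  · have := g.smul 0 le_rfl 0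
    simp only [zero_smul, zero_mul] at this
    simp [h, this]
  · have a1 : N x ≤ N _ := h1 (nrm _ h (inner_hor g.he y))
    have a2 : N _ ≤ N x' := h2 (nrm _ h (inner_hor g.he y))
    have a3 := norm_pos_iff.2 h
    rw [g.smul _ (by positivity)] at a1 a2
    rw [inv_mul_le_iff₀' a3] at a2
    rw [le_inv_mul_iff₀' a3] at a1
    exact ⟨a1, a2⟩

lemma Gau.pkg (g : Gau e N) (hd : 1 < Module.finrank ℝ V) :
    ∃ c : ℝ, Pkg (cF e N) e (c • innerSL ℝ e) := by
  obtain ⟨x, x', ⟨h1, h2⟩, -, h⟩ := g.bounds hd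
  have m0 := g.pos x h1 (fun h => by simp [h] at h2)
  refine ⟨(N x)⁻¹ + 1, g.cont.sub (by fun_prop), fun x y => ?_, fun c hc x => ?_, ?_, fun y hy => ?_⟩
  · simp only [cF, inner_add_right]
    linarith [g.add x y]
  · simp only [cF, inner_smul_right, g.smul c hc]
    ring
  · have a1 := g.vert 0 1
    have a2 := g.smul 0 le_rfl 0
    simp only [zero_smul, zero_mul, zero_add, one_smul] at a1 a2
    rw [cF, a1, a2, inner_ee g.he]
    norm_num
  · have a1 : N x * ‖hor e y‖ ≤ ⟪e, y⟫ := (h y).1.trans (sub_nonpos.1 hy)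
    have a2 : 0 ≤ ⟪e, y⟫ := le_trans (by positivity) a1
    have a3 : ‖y‖ ≤ ‖hor e y‖ + ⟪e, y⟫ := by
      have := norm_add_le (hor e y) (⟪e, y⟫ • e)
      rwa [norm_smul, g.he, mul_one, Real.norm_of_nonneg a2, hor, sub_add_cancel] at this
    rw [← le_inv_mul_iff₀ m0] at a1
    simp only [smul_apply, innerSL_apply_apply, smul_eq_mul]
    linarith

theorem Gau.quad (g : Gau e N) (hd : 1 < Module.finrank ℝ V) (T : Trans (cF e N)) :
    IsQuad (cF e N) := by
  obtain ⟨c, p⟩ := g.pkg hd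
  obtain ⟨x, x', ⟨h1, h2⟩, ⟨h3, h4⟩, h⟩ := g.bounds hd
  have m0 := g.pos x h1 (fun h => by simp [h] at h2)
  have M0 := g.pos x' h3 (fun h => by simp [h] at h4)
  have ee := inner_ee g.he
  have ne : ∀ z, ⟪e, z⟫ = 0 → 0 < N z → z + N z • e ≠ 0 := fun z hz h0 h' => by
    have := congrArg (fun y => ⟪e, y⟫) h'
    simp only [inner_add_right, inner_smul_right, hz, ee, inner_zero_right] at this
    linarith
  have xh : ∀ z y, ⟪e, z⟫ = 0 → ⟪z, hor e y⟫ = ⟪z, y⟫ := fun z y hz => by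
    rw [hor, inner_sub_right, inner_smul_right, real_inner_comm e z, hz]
    ring
  refine quad_of_trans p T (p.good T
    ⟨_, innerSL ℝ e - N x' • innerSL ℝ x', g.bd h3, ne _ h3 M0, ?_, N x' / 2, by positivity,
      fun d hd => ?_⟩
    ⟨_, innerSL ℝ e - N x • innerSL ℝ x, g.bd h1, ne _ h1 m0, ?_, ?_, fun y hy => ?_,
      2 / N x + 2, by positivity, fun y hy => ⟨⟪x, y⟫, ?_⟩⟩) hd (g.bd h1) (ne _ h1 m0)
  · simp [real_inner_comm e x', h3, g.he]
  · simp only [sub_apply, smul_apply, innerSL_apply_apply, smul_eq_mul] at hd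
    have a1 := (h (x' + hor e d)).2
    have a2 : hor e (x' + hor e d) = x' + hor e d := by
      rw [hor, inner_add_right, h3, inner_hor g.he]; simp
    have a3 : x' + N x' • e + d = x' + hor e d + (N x' + ⟪e, d⟫) • e := by rw [hor]; module
    have a4 := norm_add_sq_real x' (hor e d)
    rw [h4, xh _ _ h3, norm_hor g.he] at a4
    rw [a2] at a1
    have a5 : ‖x' + hor e d‖ ≤ 1 + ⟪x', d⟫ + ‖d‖ ^ 2 / 2 := by
      nlinarith [sq_nonneg (‖x' + hor e d‖ - 1), sq_nonneg ⟪e, d⟫]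
    have a6 := mul_le_mul_of_nonneg_left a5 M0.le
    rw [cF, inner_add_right, inner_add_right, inner_smul_right, h3, ee, a3, g.vert]
    linarith
  · simp [real_inner_comm e x, h1, g.he]
  · simp [inner_add_right, inner_smul_right, real_inner_comm e x, h1, h2, g.he]
  · simp only [sub_apply, smul_apply, innerSL_apply_apply, smul_eq_mul]
    have a1 : N x * ‖hor e y‖ ≤ ⟪e, y⟫ := (h y).1.trans (sub_nonpos.1 hy)
    have a2 := real_inner_le_norm x (hor e y)
    rw [h2, one_mul, xh _ _ h1] at a2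
    linarith [mul_le_mul_of_nonneg_left a2 m0.le]
  · simp only [sub_apply, smul_apply, innerSL_apply_apply, smul_eq_mul]
    have a1 : N x * ‖hor e y‖ ≤ ⟪e, y⟫ := (h y).1.trans (sub_nonpos.1 hy)
    have a2 := abs_real_inner_le_norm x (hor e y)
    rw [h2, one_mul, xh _ _ h1, abs_le] at a2
    have a3 := real_inner_le_norm e y
    rw [g.he, one_mul] at a3
    have a4 := norm_hor g.he y
    have a5 : ‖hor e y‖ ≤ ‖y‖ :=
      (sq_le_sq₀ (norm_nonneg _) (norm_nonneg _)).1 (by nlinarith [sq_nonneg ⟪e, y⟫])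
    have a6 : ‖y - ⟪x, y⟫ • (x + N x • e)‖ ^ 2 =
        ‖hor e y‖ ^ 2 - ⟪x, y⟫ ^ 2 + (⟪e, y⟫ - N x * ⟪x, y⟫) ^ 2 := by
      rw [a4, norm_sub_sq_real, norm_smul, mul_pow, norm_add_sq_real, norm_smul, g.he, h2]
      simp only [inner_add_right, inner_smul_right, real_inner_comm e x, real_inner_comm x y,
        real_inner_comm e y, h1, Real.norm_eq_abs, sq_abs, mul_one]
      ring
    set r := ‖hor e y‖
    set α := ⟪x, y⟫
    set τ := ⟪e, y⟫
    have b0 : 0 ≤ τ - N x * α := by linarith [mul_le_mul_of_nonneg_left a2.2 m0.le]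
    have b1 : r - α ≤ (τ - N x * α) / N x := by rw [le_div_iff₀ m0]; linarith
    have b2 : (r - α) * (r + α) ≤ (τ - N x * α) / N x * (2 * ‖y‖) :=
      mul_le_mul b1 (by linarith) (by linarith) (by positivity)
    have b3 : (τ - N x * α) * (τ - N x * α) ≤ 2 * ‖y‖ * (τ - N x * α) :=
      mul_le_mul_of_nonneg_right (by linarith [mul_le_mul_of_nonneg_left a2.1 m0.le]) b0
    rw [a6]
    have b4 : (2 / N x + 2) * ‖y‖ * (τ - N x * α) =
        (τ - N x * α) / N x * (2 * ‖y‖) + 2 * ‖y‖ * (τ - N x * α) := by ring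
    rw [b4]
    nlinarith

end Pool.Agent.Lib.MP_2f98a8_gt.Ev
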