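import Mathlib
import Pool.Agent.Shared.Brouwer

/-!
The hairy ball theorem in odd-dimensional Euclidean spaces (Milnor's analytic proof).
-/

namespace Pool.Agent.Lib.MP_2f98a8_gt.Ev

open Set Metric MeasureTheory
open scoped InnerProductSpace NNReal Topology

theorem not_sq_eq {n : ℕ} (hn : Odd n) (P : Polynomial ℝ) {t₀ : ℝ} (ht₀ : 0 < t₀)
    (h : ∀ t : ℝ, 0 ≤ t → t ≤ t₀ → P.eval t * P.eval t = (1 + t ^ 2) ^ n) : False := by
  have h1 : P * P = (1 + Polynomial.X ^ 2) ^ n := by
    apply Polynomial.eq_of_infinite_eval_eq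
    refine (Set.Icc_infinite ht₀).mono fun t ht => ?_
    simp [h t ht.1 ht.2]
  have h2 : P.map (algebraMap ℝ ℂ) * P.map (algebraMap ℝ ℂ) =
      (Polynomial.X - Polynomial.C Complex.I) ^ n * (Polynomial.X + Polynomial.C Complex.I) ^ n := by
    rw [← Polynomial.map_mul, h1, ← mul_pow]
    have : (Polynomial.X - Polynomial.C Complex.I) * (Polynomial.X + Polynomial.C Complex.I) =
        1 + Polynomial.X ^ 2 := by
      have e : (Polynomial.C Complex.I) ^ 2 = -1 := by
        rw [← Polynomial.C_pow, Complex.I_sq]; simp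
      linear_combination (-1 : Polynomial ℂ) * e
    rw [this]
    simp
  have hne : (Polynomial.X - Polynomial.C Complex.I) ^ n *
      (Polynomial.X + Polynomial.C Complex.I) ^ n ≠ 0 :=
    mul_ne_zero (pow_ne_zero _ (Polynomial.X_sub_C_ne_zero _))
      (pow_ne_zero _ (Polynomial.X_add_C_ne_zero _))
  have h3 := congrArg (Polynomial.rootMultiplicity Complex.I) h2
  rw [Polynomial.rootMultiplicity_mul (h2 ▸ hne), Polynomial.rootMultiplicity_mul hne,
    Polynomial.rootMultiplicity_X_sub_C_pow,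
    Polynomial.rootMultiplicity_eq_zero (p := (Polynomial.X + Polynomial.C Complex.I) ^ n)
      (by simp [Polynomial.IsRoot, ← two_mul])] at h3
  obtain ⟨m, hm⟩ := hn
  omega

variable {E : Type*} [NormedAddCommGroup E] [InnerProductSpace ℝ E] [FiniteDimensional ℝ E]

theorem hairy_smooth (hodd : Odd (Module.finrank ℝ E)) (g : E → E) (hg : ContDiff ℝ 1 g)
    (h0 : ∀ x, ⟪x, g x⟫_ℝ = 0) (h1 : ∀ x, ‖g x‖ ≤ 1) (h2 : ∀ x, ‖x‖ = 1 → ‖g x‖ = 1) :
    False := by
  classical
  borelize E
  let μ : Measure E := Measure.addHaar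
  have hgd : Differentiable ℝ g := hg.differentiable (by norm_num)
  have hgc : Continuous (fderiv ℝ g) := hg.continuous_fderiv (by norm_num)
  obtain ⟨L, hL⟩ := (isCompact_closedBall (0 : E) 1).exists_bound_of_continuousOn hgc.continuousOn
  have hL0 : 0 ≤ L := (norm_nonneg _).trans (hL 0 (mem_closedBall_self zero_le_one))
  have hlip : ∀ x ∈ ball (0 : E) 1, ∀ y ∈ ball (0 : E) 1, ‖g x - g y‖ ≤ L * ‖x - y‖ :=
    fun x hx y hy => (convex_closedBall (0 : E) 1).norm_image_sub_le_of_norm_fderiv_le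
      (fun z _ => hgd z) hL (ball_subset_closedBall hy) (ball_subset_closedBall hx)
  have hdet : ∀ᶠ N in 𝓝 (ContinuousLinearMap.id ℝ E), 0 < N.det := by
    apply ContinuousLinearMap.continuous_det.continuousAt.eventually (lt_mem_nhds _)
    simp [ContinuousLinearMap.det]
  obtain ⟨δ, hδ, hδ'⟩ := Metric.eventually_nhds_iff.mp hdet
  let t₀ : ℝ := min δ 1 / (2 * (L + 1))
  have ht₀ : 0 < t₀ := by positivity
  have ht₀L : t₀ * (L + 1) = min δ 1 / 2 := by simp only [t₀]; field_simp
  have hmin1 := min_le_left δ 1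
  have hmin2 := min_le_right δ 1
  have hint : ∀ t : ℝ, IntegrableOn
      (fun x => (ContinuousLinearMap.id ℝ E + t • fderiv ℝ g x).det) (ball 0 1) μ := by
    intro t
    apply IntegrableOn.mono_set _ ball_subset_closedBall
    apply ContinuousOn.integrableOn_compact (isCompact_closedBall _ _)
    exact (ContinuousLinearMap.continuous_det.comp
      (continuous_const.add (hgc.const_smul t))).continuousOn
  have key : ∀ t : ℝ, 0 ≤ t → t ≤ t₀ →
      ∫ x in ball (0 : E) 1, (ContinuousLinearMap.id ℝ E + t • fderiv ℝ g x).det ∂μ =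
        √(1 + t ^ 2) ^ Module.finrank ℝ E * μ.real (ball 0 1) := by
    intro t ht0 ht1
    have htL : t * (L + 1) ≤ min δ 1 / 2 := by
      rw [← ht₀L]; exact mul_le_mul_of_nonneg_right ht1 (by positivity)
    let f : E → E := fun x => x + t • g x
    have hf : ∀ x, HasFDerivAt f (ContinuousLinearMap.id ℝ E + t • fderiv ℝ g x) x := fun x =>
      (hasFDerivAt_id x).add ((hgd x).hasFDerivAt.const_smul t)
    have happ : ApproximatesLinearOn f
        ((ContinuousLinearEquiv.refl ℝ E : E ≃L[ℝ] E) : E →L[ℝ] E) (ball 0 1) (1 / 2 : ℝ≥0) := by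
      intro x hx y hy
      have : f x - f y - (x - y) = t • (g x - g y) := by simp only [f, smul_sub]; abel
      change ‖f x - f y - (x - y)‖ ≤ _
      rw [this, norm_smul, Real.norm_of_nonneg ht0]
      have h3 := hlip x hx y hy
      have h4 : t * L ≤ 1 / 2 := by nlinarith
      calc t * ‖g x - g y‖ ≤ t * (L * ‖x - y‖) := mul_le_mul_of_nonneg_left h3 ht0
        _ = (t * L) * ‖x - y‖ := by ring
        _ ≤ 1 / 2 * ‖x - y‖ := mul_le_mul_of_nonneg_right h4 (norm_nonneg _)
        _ = _ := by simp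
    have hc : Subsingleton E ∨ (1 / 2 : ℝ≥0) <
        ‖((ContinuousLinearEquiv.refl ℝ E : E ≃L[ℝ] E).symm : E →L[ℝ] E)‖₊⁻¹ := by
      rcases subsingleton_or_nontrivial E with h | h
      · exact Or.inl h
      · right
        simp only [ContinuousLinearEquiv.refl_symm, ContinuousLinearEquiv.coe_refl,
          ContinuousLinearMap.nnnorm_id, inv_one]
        norm_num
    have hinj : InjOn f (ball 0 1) := happ.injOn hc
    have hopen : IsOpen (f '' ball 0 1) :=
      happ.open_image (ContinuousLinearEquiv.refl ℝ E).toNonlinearRightInverse isOpen_ball hc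
    have hfc : Continuous f := continuous_id.add (hg.continuous.const_smul t)
    have hn : ∀ x, ‖f x‖ ^ 2 = ‖x‖ ^ 2 + t ^ 2 * ‖g x‖ ^ 2 := by
      intro x
      simp only [f]
      rw [norm_add_sq_real, real_inner_smul_right, h0, norm_smul, Real.norm_of_nonneg ht0]
      ring
    have hρ : 0 < √(1 + t ^ 2) := Real.sqrt_pos.2 (by positivity)
    have hsub : f '' ball 0 1 ⊆ ball 0 √(1 + t ^ 2) := by
      rintro _ ⟨x, hx, rfl⟩
      rw [mem_ball_zero_iff] at hx ⊢
      apply Real.lt_sqrt_of_sq_lt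
      rw [hn]
      have a1 : ‖g x‖ ^ 2 ≤ 1 := by nlinarith [h1 x, norm_nonneg (g x)]
      have a2 : ‖x‖ ^ 2 < 1 := by nlinarith [norm_nonneg x]
      nlinarith [sq_nonneg t]
    have hsup : ball (0 : E) √(1 + t ^ 2) ⊆ f '' ball 0 1 := by
      apply (convex_ball (0 : E) _).isPreconnected.subset_left_of_subset_union hopen
        ((isCompact_closedBall (0 : E) 1).image hfc).isClosed.isOpen_compl
      · exact disjoint_compl_right.mono_left (image_mono ball_subset_closedBall)
      · intro y hy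
        by_cases hy' : y ∈ f '' closedBall 0 1
        · left
          obtain ⟨x, hx, rfl⟩ := hy'
          refine ⟨x, ?_, rfl⟩
          rw [mem_closedBall_zero_iff] at hx
          rw [mem_ball_zero_iff] at hy ⊢
          rcases hx.lt_or_eq with h | h
          · exact h
          · exfalso
            have a1 := hn x
            rw [h, h2 x h] at a1
            have a2 : ‖f x‖ = √(1 + t ^ 2) := by
              rw [← Real.sqrt_sq (norm_nonneg (f x)), a1]; congr 1; ring
            exact hy.ne a2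
        · exact Or.inr hy'
      · have h0 : (0 : E) ∈ ball (0 : E) 1 := mem_ball_self one_pos
        exact ⟨f 0, hsub ⟨0, h0, rfl⟩, 0, h0, rfl⟩
    have hcv := integral_image_eq_integral_abs_det_fderiv_smul μ measurableSet_ball
      (fun x _ => (hf x).hasFDerivWithinAt) hinj (fun _ => (1 : ℝ))
    rw [Subset.antisymm hsub hsup] at hcv
    simp only [integral_const, MeasurableSet.univ, measureReal_restrict_apply, univ_inter,
      smul_eq_mul, mul_one] at hcv
    have hb : μ.real (ball (0 : E) √(1 + t ^ 2)) =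
        √(1 + t ^ 2) ^ Module.finrank ℝ E * μ.real (ball 0 1) := by
      rw [Measure.real, Measure.addHaar_ball_of_pos μ _ hρ, ENNReal.toReal_mul,
        ENNReal.toReal_ofReal (by positivity), Measure.real]
    rw [← hb, hcv]
    apply setIntegral_congr_fun measurableSet_ball
    intro x hx
    have : 0 < (ContinuousLinearMap.id ℝ E + t • fderiv ℝ g x).det := by
      apply hδ'
      rw [dist_eq_norm, add_sub_cancel_left, norm_smul, Real.norm_of_nonneg ht0]
      have := hL x (ball_subset_closedBall hx)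
      nlinarith [mul_le_mul_of_nonneg_left this ht0]
    simp only [abs_of_pos this]
  let n := Module.finrank ℝ E
  let s : Finset ℕ := Finset.range (n + 1)
  let v : ℕ → ℝ := fun j => j
  have hv : InjOn v s := fun a _ b _ h => Nat.cast_injective (R := ℝ) h
  have hlag : ∀ (t : ℝ) x, (ContinuousLinearMap.id ℝ E + t • fderiv ℝ g x).det =
      ∑ j ∈ s, (Lagrange.basis s v j).eval t *
        (ContinuousLinearMap.id ℝ E + v j • fderiv ℝ g x).det := by
    intro t x
    obtain ⟨p, hp1, hp2⟩ := Pool.Agent.Shared.Brouwer.det_poly (fderiv ℝ g x)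
    have hdeg : p.degree < s.card := by
      refine lt_of_le_of_lt Polynomial.degree_le_natDegree ?_
      simp only [s, Finset.card_range]
      exact_mod_cast Nat.lt_succ_of_le hp1
    rw [← hp2, Lagrange.eq_interpolate hv hdeg, Lagrange.interpolate_apply,
      Polynomial.eval_finsetSum]
    refine Finset.sum_congr rfl fun j _ => ?_
    rw [Polynomial.eval_mul, Polynomial.eval_C, hp2, mul_comm]
  have hpos : 0 < μ.real (ball (0 : E) 1) :=
    ENNReal.toReal_pos (measure_ball_pos μ 0 one_pos).ne' measure_ball_lt_top.ne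
  let P : Polynomial ℝ := ∑ j ∈ s, Lagrange.basis s v j * Polynomial.C
    ((∫ x in ball (0 : E) 1, (ContinuousLinearMap.id ℝ E + v j • fderiv ℝ g x).det ∂μ) /
      μ.real (ball 0 1))
  refine not_sq_eq hodd P ht₀ fun t ht0 ht1 => ?_
  have hP : P.eval t = √(1 + t ^ 2) ^ Module.finrank ℝ E := by
    have := key t ht0 ht1
    simp_rw [hlag t] at this
    rw [integral_finsetSum _ (fun j _ => (hint (v j)).const_mul _)] at this
    rw [← mul_left_inj' hpos.ne', ← this]
    simp only [P, Polynomial.eval_finsetSum, Finset.sum_mul, Polynomial.eval_mul,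
      Polynomial.eval_C]
    refine Finset.sum_congr rfl fun j _ => ?_
    rw [integral_const_mul]
    field_simp
  rw [hP, ← mul_pow, Real.mul_self_sqrt (by positivity)]

/-- The hairy ball theorem. -/
theorem hairy (hodd : Odd (Module.finrank ℝ E)) (X : E → E) (hX : Continuous X)
    (h0 : ∀ x, ‖x‖ = 1 → ⟪x, X x⟫_ℝ = 0) : ∃ x, ‖x‖ = 1 ∧ X x = 0 := by
  by_contra hcon
  push Not at hcon
  obtain ⟨k, hk1, hk2, -⟩ := hX.exists_contDiff_approx 1
    (ε := fun x => ‖X x‖ + |‖x‖ - 1|) (by fun_prop) (fun x => by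
      by_cases h : ‖x‖ = 1
      · have := norm_pos_iff.2 (hcon x h)
        positivity
      · have := abs_pos.2 (sub_ne_zero.2 h)
        positivity)
  let P : E → E := fun x => ‖x‖ ^ 2 • k x - ⟪x, k x⟫_ℝ • x
  have hn2 : ContDiff ℝ 1 fun x : E => ‖x‖ ^ 2 := contDiff_norm_sq ℝ
  have hP : ContDiff ℝ 1 P :=
    (hn2.smul hk1).sub ((contDiff_id.inner ℝ hk1).smul contDiff_id)
  have hP0 : ∀ x, ‖x‖ = 1 → P x ≠ 0 := by
    intro x hx h
    have h1 := hk2 x
    have h2 : k x = ⟪x, k x⟫_ℝ • x := by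
      have := sub_eq_zero.1 h
      simpa [hx] using this
    rw [dist_eq_norm, hx, sub_self, abs_zero, add_zero, h2] at h1
    have h3 := norm_sub_sq_real (⟪x, k x⟫_ℝ • x) (X x)
    rw [real_inner_smul_left, h0 x hx] at h3
    nlinarith [norm_nonneg (⟪x, k x⟫_ℝ • x - X x), sq_nonneg ‖⟪x, k x⟫_ℝ • x‖]
  let r : E → ℝ := fun x => ‖P x‖ ^ 2 + (1 - ‖x‖ ^ 2) ^ 2
  have hr : ∀ x, 0 < r x := by
    intro x
    by_cases h : ‖x‖ = 1
    · have := norm_pos_iff.2 (hP0 x h)
      positivity
    · have : 1 - ‖x‖ ^ 2 ≠ 0 := fun e => h (by nlinarith [norm_nonneg x])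
      positivity
  have hrc : ContDiff ℝ 1 r := (hP.norm_sq ℝ).add ((contDiff_const.sub hn2).pow 2)
  refine hairy_smooth hodd (fun x => (√(r x))⁻¹ • P x)
    (((hrc.sqrt fun x => (hr x).ne').inv fun x => (Real.sqrt_pos.2 (hr x)).ne').smul hP)
    (fun x => ?_) (fun x => ?_) (fun x hx => ?_)
  · simp only [P, real_inner_smul_right, inner_sub_right, real_inner_self_eq_norm_sq]
    ring
  · rw [norm_smul, norm_inv, Real.norm_of_nonneg (Real.sqrt_nonneg _),
      inv_mul_le_iff₀ (Real.sqrt_pos.2 (hr x)), mul_one]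
    exact Real.le_sqrt_of_sq_le (by simp only [r]; nlinarith [sq_nonneg (1 - ‖x‖ ^ 2)])
  · have : √(r x) = ‖P x‖ := by simp [r, hx]
    rw [norm_smul, norm_inv, this, norm_norm, inv_mul_cancel₀ (norm_pos_iff.2 (hP0 x hx)).ne']

end Pool.Agent.Lib.MP_2f98a8_gt.Ev
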