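import Mathlib
import Pool.Agent.Lib.MP_2f98a8_gt.Ev.Gauge
import Pool.Agent.Lib.MP_2f98a8_gt.Ev.Hairy
import Pool.Agent.Lib.MP_2f98a8_gt.Ev.Cube

/-!
Projectively equivalent hyperplane sections in odd dimension: the hairy ball theorem makes the
automorphism group of a section transitive on its boundary.
-/

namespace Pool.Agent.Lib.MP_2f98a8_gt.Ev

open Set Filter Topology Pool.Agent.Lib.MP_2f98a8_gt
open scoped RealInnerProductSpace

variable {V : Type*} [NormedAddCommGroup V] [InnerProductSpace ℝ V]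

/-- A family of injections of the hyperplane orthogonal to `e`; for a unit vector `u` not too close
to `-e` the image is the hyperplane orthogonal to `u`. -/
noncomputable def Lm (e u : V) : V →ₗ[ℝ] V where
  toFun y := (1 + max ⟪e, u⟫ (-1 / 2)) • hor e y -
    ⟪u, hor e y⟫ • (hor e u + (1 + max ⟪e, u⟫ (-1 / 2)) • e)
  map_add' x y := by
    simp only [hor, inner_add_right, inner_sub_right, inner_smul_right]
    module
  map_smul' c x := by
    simp only [hor, inner_sub_right, inner_smul_right, RingHom.id_apply]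
    module

lemma Lm_apply (e u y : V) : Lm e u y = (1 + max ⟪e, u⟫ (-1 / 2)) • hor e y -
    ⟪u, hor e y⟫ • (hor e u + (1 + max ⟪e, u⟫ (-1 / 2)) • e) := rfl

variable {e : V}

lemma continuous_Lm : Continuous fun p : V × V => Lm e p.1 p.2 := by
  simp only [Lm_apply, hor]
  fun_prop

lemma Lm_e (he : ‖e‖ = 1) (u : V) : Lm e u e = 0 := by simp [Lm_apply, hor, he]

lemma Lm_zero (y : V) : Lm e 0 y = hor e y := by
  rw [Lm_apply, inner_zero_right, inner_zero_left, max_eq_left (by norm_num)]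
  simp

lemma Lm_inj (he : ‖e‖ = 1) {u y : V} (h1 : Lm e u y = 0) (h2 : ⟪e, y⟫ = 0) : y = 0 := by
  have c0 : 0 < 1 + max ⟪e, u⟫ (-1 / 2) := by linarith [le_max_right ⟪e, u⟫ (-1 / 2)]
  have h3 := congrArg (fun z => ⟪e, z⟫) h1
  simp only [Lm_apply, inner_sub_right, inner_smul_right, inner_add_right, inner_hor he,
    inner_ee he, inner_zero_right, mul_zero, zero_add, mul_one, zero_sub, neg_eq_zero,
    mul_eq_zero, c0.ne', or_false] at h3
  rw [Lm_apply, h3, zero_smul, sub_zero, smul_eq_zero, hor, h2] at h1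
  simpa [c0.ne'] using h1

lemma Lm_tangent {u : V} (hu : ‖u‖ = 1) (h : -1 / 2 ≤ ⟪e, u⟫) (y : V) : ⟪u, Lm e u y⟫ = 0 := by
  have : ⟪u, hor e u⟫ = 1 - ⟪e, u⟫ ^ 2 := by
    rw [hor, inner_sub_right, inner_smul_right, inner_ee hu, real_inner_comm e u]
    ring
  rw [Lm_apply, max_eq_left h, inner_sub_right, inner_smul_right, inner_smul_right, inner_add_right,
    inner_smul_right, this, real_inner_comm e u]
  ring

/-- The reflection in a unit vector. -/
noncomputable def Jr (u : V) : V →L[ℝ] V :=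
  1 - (2 : ℝ) • ContinuousLinearMap.smulRightL ℝ V V (innerSL ℝ u) u

lemma Jr_apply (u y : V) : Jr u y = y - (2 * ⟪u, y⟫) • u := by
  simp [Jr, smul_smul]

lemma continuous_Jr : Continuous (Jr : V → V →L[ℝ] V) :=
  continuous_const.sub ((((ContinuousLinearMap.smulRightL ℝ V V).continuous.comp
    (innerSL ℝ).continuous).clm_apply continuous_id).const_smul (2 : ℝ))

lemma Jr_unit {u : V} (hu : ‖u‖ = 1) : IsUnit (Jr u) := by
  have : Jr u * Jr u = 1 := by
    ext y
    simp only [mul_apply_eq_comp, Jr_apply, inner_sub_right, inner_smul_right, inner_ee hu,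
      one_apply_eq_self]
    module
  exact ⟨⟨_, _, this, this⟩, rfl⟩

lemma Jr_e {u : V} (h : ⟪e, u⟫ = 0) (y : V) : ⟪e, Jr u y⟫ = ⟪e, y⟫ := by
  rw [Jr_apply, inner_sub_right, inner_smul_right, h]
  ring

lemma Lm_Jr {u : V} (hu : ‖u‖ = 1) (h : ⟪e, u⟫ = 0) (y : V) : Lm e (-u) (Jr u y) = Lm e u y := by
  have m : max (0 : ℝ) (-1 / 2) = 0 := max_eq_left (by norm_num)
  simp only [Lm_apply, hor, Jr_e h, inner_neg_right, inner_neg_left, h, neg_zero, m]
  simp only [Jr_apply, inner_sub_right, inner_smul_right, inner_ee hu, real_inner_comm e u, h]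
  module

/-- A gauge on the whole space. -/
structure Nrm (N : V → ℝ) : Prop where
  cont : Continuous N
  add : ∀ x y, N (x + y) ≤ N x + N y
  smul : ∀ c : ℝ, 0 ≤ c → ∀ x, N (c • x) = c * N x
  pos : ∀ x, x ≠ 0 → 0 < N x

variable {N : V → ℝ}

lemma Nrm.gau (n : Nrm N) (he : ‖e‖ = 1) (u : V) : Gau e fun y => N (Lm e u y) where
  he := he
  cont := n.cont.comp (continuous_Lm.comp (continuous_const.prodMk continuous_id))
  add x y := by rw [map_add]; exact n.add _ _
  smul c hc x := by rw [map_smul]; exact n.smul c hc _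
  vert x s := by rw [map_add, map_smul, Lm_e he, smul_zero, add_zero]
  pos x hx x0 := n.pos _ fun h => x0 (Lm_inj he h hx)

/-- The cone over the section with parameter `u`. -/
noncomputable def sF (e : V) (N : V → ℝ) (u : V) : V → ℝ := cF e fun y => N (Lm e u y)

lemma Nrm.dc_closed (n : Nrm N) (he : ‖e‖ = 1) {hk : ℕ → V →L[ℝ] V} {xk yk : ℕ → V}
    {h : V →L[ℝ] V} {x y : V} (t1 : Tendsto hk atTop (𝓝 h)) (t2 : Tendsto xk atTop (𝓝 x))
    (t3 : Tendsto yk atTop (𝓝 y))
    (H : ∀ᶠ k in atTop, ∀ v, DC (sF e N (xk k)) v → DC (sF e N (yk k)) (hk k v)) (v : V)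
    (hv : DC (sF e N x) v) : DC (sF e N y) (h v) := by
  have hc : Continuous fun p : V × V => sF e N p.1 p.2 :=
    (n.cont.comp continuous_Lm).sub (by fun_prop)
  have main : ∀ v, sF e N x v = 0 → DC (sF e N y) (h v) := by
    intro v hv
    have hcl : IsClosed {p : V × V | DC (sF e N p.1) p.2} :=
      IsClosed.union (isClosed_eq hc continuous_const)
        (isClosed_eq (hc.comp (continuous_fst.prodMk continuous_snd.neg)) continuous_const)
    have t4 : Tendsto (fun k => v + sF e N (xk k) v • e) atTop (𝓝 v) := by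
      have := (((hc.tendsto (x, v)).comp (t2.prodMk_nhds tendsto_const_nhds)).smul_const e).const_add v
      simpa [hv] using this
    refine hcl.mem_of_tendsto (t3.prodMk_nhds (tapp t1 t4)) ?_
    filter_upwards [H] with k hk
    refine hk _ (Or.inl ?_)
    rw [sF, cF, (n.gau he _).vert, inner_add_right, inner_smul_right, inner_ee he, cF]
    ring
  rcases hv with hv | hv
  · exact main v hv
  · have := main (-v) hv
    rwa [map_neg, DC.neg_iff] at this

variable [FiniteDimensional ℝ V]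

lemma Nrm.exists_sec (n : Nrm N) (he : ‖e‖ = 1)
    (heq : ∀ x y, ∃ g : V →L[ℝ] V, IsUnit g ∧ ∀ v, DC (sF e N x) v ↔ DC (sF e N y) (g v)) :
    ∃ σ : V → V →L[ℝ] V, Continuous σ ∧
      (∀ x, ∃ y, IsUnit (σ x) ∧ ∀ v, DC (sF e N 0) v ↔ DC (sF e N y) (σ x v)) ∧
      ∀ x, ‖x‖ ≤ 1 → IsUnit (σ x) ∧ ∀ v, DC (sF e N 0) v ↔ DC (sF e N x) (σ x v) := by
  have : CompleteSpace V := FiniteDimensional.complete ℝ V
  have : Nontrivial V := ⟨⟨e, 0, fun h => by simp [h] at he⟩⟩
  let _ : NormedAlgebra ℚ (V →L[ℝ] V) := NormedAlgebra.restrictScalars ℚ ℝ _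
  have inv : ∀ {h : V →L[ℝ] V} {x y},
      (IsUnit h ∧ ∀ v, DC (sF e N x) v ↔ DC (sF e N y) (h v)) → (IsUnit (Ring.inverse h) ∧
        ∀ v, DC (sF e N y) v ↔ DC (sF e N x) (Ring.inverse h v)) := by
    rintro h x y ⟨hu, hh⟩
    exact ⟨hu.ringInverse, fun v => by rw [hh, app_inv hu]⟩
  have G : IsGroupoid (A := V →L[ℝ] V)
      (fun h x y => IsUnit h ∧ ∀ v, DC (sF e N x) v ↔ DC (sF e N y) (h v)) :=
    { unit := fun h => h.1
      one := fun x => ⟨isUnit_one, fun v => Iff.rfl⟩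
      mul := fun h1 h2 => ⟨h1.1.mul h2.1, fun v => by rw [h2.2, h1.2]; rfl⟩
      inv := inv
      closed := by
        intro hk xk yk h x y t1 hu t2 t3 H
        refine ⟨hu, fun v => ⟨fun hv => ?_, fun hv => ?_⟩⟩
        · exact n.dc_closed he t1 t2 t3 (H.mono fun k hk v => (hk.2 v).1) v hv
        · have := n.dc_closed he (tinv hu t1) t3 t2 (H.mono fun k hk v => ((inv hk).2 v).1) _ hv
          rwa [inv_app hu] at this
      trans := heq }
  exact exists_global G 0 1

theorem Nrm.trans (n : Nrm N) (he : ‖e‖ = 1) (hodd : Odd (Module.finrank ℝ V))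
    (hd : 2 < Module.finrank ℝ V)
    (heq : ∀ x y, ∃ g : V →L[ℝ] V, IsUnit g ∧ ∀ v, DC (sF e N x) v ↔ DC (sF e N y) (g v)) :
    Trans (sF e N 0) := by
  have : CompleteSpace V := FiniteDimensional.complete ℝ V
  have : ProperSpace V := FiniteDimensional.proper ℝ V
  obtain ⟨σ, σc, σD, σR⟩ := n.exists_sec he heq
  have σu : ∀ x, IsUnit (σ x) := fun x => (σD x).choose_spec.1
  have pk : ∀ u, ∃ c : ℝ, Pkg (sF e N u) e (c • innerSL ℝ e) := fun u => (n.gau he u).pkg (by omega)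
  have tne : ∀ u y, DC (sF e N u) y → y ≠ 0 → ⟪e, y⟫ ≠ 0 := fun u y hy y0 h => by
    obtain ⟨c, p⟩ := pk u
    exact p.dc_ne hy y0 (by simp [h])
  have one : ∀ u y, DC (sF e N u) y → y ≠ 0 → N (⟪e, y⟫⁻¹ • Lm e u y) = 1 := by
    have aux : ∀ u y, sF e N u y = 0 → y ≠ 0 → N (⟪e, y⟫⁻¹ • Lm e u y) = 1 := fun u y hy y0 => by
      have h1 := tne u y (Or.inl hy) y0
      have h2 : N (Lm e u y) = ⟪e, y⟫ := sub_eq_zero.1 hy
      have h3 : 0 < N (Lm e u y) := n.pos _ fun h => by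
        have := n.smul 0 le_rfl 0
        rw [zero_smul, zero_mul] at this
        rw [h, this] at h2
        exact h1 h2.symm
      rw [← h2, n.smul _ (inv_pos.2 h3).le, inv_mul_cancel₀ h3.ne']
    rintro u y (hy | hy) y0
    · exact aux u y hy y0
    · simpa [inv_neg] using aux u _ hy (neg_ne_zero.2 y0)
  let a : V → V →L[ℝ] V := fun u => Ring.inverse (σ (-u)) * (Jr u * σ u)
  have ac : Continuous a := by
    refine Continuous.mul ?_ (continuous_Jr.mul σc)
    exact continuous_iff_continuousAt.2 fun u => tinv (σu _) ((σc.comp continuous_neg).tendsto u)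
  have au : ∀ u, ‖u‖ = 1 → IsUnit (a u) := fun u hu =>
    (σu _).ringInverse.mul ((Jr_unit hu).mul (σu _))
  refine ⟨a '' Metric.sphere 0 1 ∪ (fun u => -a u) '' Metric.sphere 0 1,
    ((isCompact_sphere _ _).image ac).union ((isCompact_sphere _ _).image ac.neg), ?_, ?_⟩
  · rintro _ (⟨u, hu, rfl⟩ | ⟨u, hu, rfl⟩)
    · exact au u (by simpa using hu)
    · exact (au u (by simpa using hu)).neg
  intro v w hv v0 hw w0
  let s : V → V → V := fun v u => ⟪e, σ u v⟫⁻¹ • Lm e u (σ u v)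
  have sne : ∀ v, sF e N 0 v = 0 → v ≠ 0 → ∀ u, ⟪e, σ u v⟫ ≠ 0 := fun v hv v0 u => by
    obtain ⟨y, h1, h2⟩ := σD u
    exact tne y _ ((h2 v).1 (Or.inl hv)) (unit_ne h1 v0)
  have sc : ∀ v, sF e N 0 v = 0 → v ≠ 0 → Continuous (s v) := fun v hv v0 => by
    have c1 : Continuous fun u => σ u v := σc.clm_apply continuous_const
    exact ((continuous_const.inner c1).inv₀ (sne v hv v0)).smul
      (continuous_Lm.comp (continuous_id.prodMk c1))
  have s1 : ∀ v, sF e N 0 v = 0 → v ≠ 0 → ∀ u, ‖u‖ = 1 → N (s v u) = 1 := fun v hv v0 u hu =>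
    one u _ (((σR u hu.le).2 v).1 (Or.inl hv)) (unit_ne (σu u) v0)
  have st : ∀ v u, ‖u‖ = 1 → ⟪u, max (⟪e, u⟫ + 1 / 2) 0 • s v u⟫ = 0 := fun v u hu => by
    rcases le_total (-1 / 2) ⟪e, u⟫ with h | h
    · simp only [s, inner_smul_right, Lm_tangent hu h, mul_zero]
    · rw [max_eq_right (by linarith), zero_smul, inner_zero_right]
  obtain ⟨u, hu, h0⟩ := hairy hodd
    (fun u => max (⟪e, u⟫ + 1 / 2) 0 • s v u - max (⟪e, -u⟫ + 1 / 2) 0 • s w (-u))
    (((Continuous.max (by fun_prop) continuous_const).smul (sc v hv v0)).sub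
      ((Continuous.max (by fun_prop) continuous_const).smul ((sc w hw w0).comp continuous_neg)))
    (fun u hu => by
      have := st w (-u) (by simpa using hu)
      rw [inner_neg_left, neg_eq_zero] at this
      rw [inner_sub_right, st v u hu, this, sub_zero])
  have hu' : ‖-u‖ = 1 := by simpa using hu
  rw [sub_eq_zero] at h0
  have h1 := congrArg N h0
  rw [n.smul _ (le_max_right _ _), n.smul _ (le_max_right _ _), s1 v hv v0 u hu,
    s1 w hw w0 _ hu', inner_neg_right] at h1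
  have h2 : ⟪e, u⟫ = 0 := by
    rcases max_cases (⟪e, u⟫ + 1 / 2) 0 with h | h <;>
      rcases max_cases (-⟪e, u⟫ + 1 / 2) 0 with h' | h' <;> linarith [h.1, h.2, h'.1, h'.2]
  rw [inner_neg_right, h2, neg_zero, max_eq_left (by norm_num)] at h0
  have h3 : s v u = s w (-u) := smul_right_injective V (by norm_num) h0
  have t1 := sne v hv v0 u
  have t2 := sne w hw w0 (-u)
  have h4 : ⟪e, σ u v⟫⁻¹ • Jr u (σ u v) - ⟪e, σ (-u) w⟫⁻¹ • σ (-u) w = 0 := by
    refine Lm_inj he (u := -u) ?_ ?_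
    · rw [map_sub, map_smul, map_smul, Lm_Jr hu h2, sub_eq_zero]
      exact h3
    · rw [inner_sub_right, inner_smul_right, inner_smul_right, Jr_e h2, inv_mul_cancel₀ t1,
        inv_mul_cancel₀ t2, sub_self]
  have h5 : a u v = (⟪e, σ u v⟫ * ⟪e, σ (-u) w⟫⁻¹) • w := by
    have : Jr u (σ u v) = (⟪e, σ u v⟫ * ⟪e, σ (-u) w⟫⁻¹) • σ (-u) w := by
      rw [mul_smul, ← sub_eq_zero.1 h4, smul_smul, mul_inv_cancel₀ t1, one_smul]
    simp only [a, mul_apply_eq_comp]
    rw [this, map_smul, inv_app (σu _)]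
  have h6 : ∀ y, DC (sF e N 0) y ↔ DC (sF e N 0) (a u y) := fun y => by
    have e1 : ∀ z, sF e N (-u) (Jr u z) = sF e N u z := fun z => by
      simp only [sF, cF, Lm_Jr hu h2, Jr_e h2]
    rw [(σR u hu.le).2, (σR (-u) hu'.le).2 (a u y)]
    simp only [a, mul_apply_eq_comp, app_inv (σu _), DC, ← map_neg, e1]
  obtain ⟨c, p⟩ := pk 0
  rcases lt_or_gt_of_ne (mul_ne_zero t1 (inv_ne_zero t2)) with h | h
  · have h7 : (-a u) v = (-(⟪e, σ u v⟫ * ⟪e, σ (-u) w⟫⁻¹)) • w := by
      rw [neg_apply, h5, neg_smul]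
    refine ⟨-a u, Or.inr ⟨u, by simpa using hu, rfl⟩, ?_, _, neg_pos.2 h, h7⟩
    refine p.aut_of_dc hd (au u hu).neg (fun y => ?_) hv v0 ?_
    · rw [neg_apply, DC.neg_iff, ← h6]
    · rw [h7]
      exact p.smul_eq (neg_pos.2 h).le hw
  · refine ⟨a u, Or.inl ⟨u, by simpa using hu, rfl⟩, ?_, _, h, h5⟩
    refine p.aut_of_dc hd (au u hu) h6 hv v0 ?_
    rw [h5]
    exact p.smul_eq h.le hw

/-- The planar property in the hyperplane orthogonal to `e`. -/
theorem Nrm.planar (n : Nrm N) (he : ‖e‖ = 1) (hodd : Odd (Module.finrank ℝ V))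
    (hd : 2 < Module.finrank ℝ V)
    (heq : ∀ x y, ∃ g : V →L[ℝ] V, IsUnit g ∧ ∀ v, DC (sF e N x) v ↔ DC (sF e N y) (g v)) :
    ∃ (l : V →ₗ[ℝ] ℝ) (q : V →ₗ[ℝ] V →ₗ[ℝ] ℝ), ∀ x, ⟪e, x⟫ = 0 →
      N x - N (-x) = l x ∧ N x * N (-x) = q x x := by
  obtain ⟨β, ⟨y, hy⟩, hβ⟩ := (n.gau he 0).quad (by omega) (n.trans he hodd hd heq)
  have N0 : N 0 = 0 := by simpa using n.smul 0 le_rfl 0
  have r : ∀ x, ⟪e, x⟫ = 0 → β x x + N x * (β x e + β e x) + N x ^ 2 * β e e = 0 := fun x hx => by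
    have := hβ _ ((n.gau he 0).bd hx)
    simp only [Lm_zero, hor, hx, zero_smul, sub_zero, map_add, map_smul, LinearMap.add_apply,
      LinearMap.smul_apply, smul_eq_mul] at this
    linarith
  have k : ∀ x, ⟪e, x⟫ = 0 → β e e * (N x - N (-x)) + (β x e + β e x) = 0 ∧
      β e e * (N x * N (-x)) + β x x = 0 := fun x hx => by
    rcases eq_or_ne x 0 with rfl | x0
    · simp [N0]
    have r1 := r x hx
    have r2 := r (-x) (by rw [inner_neg_right, hx, neg_zero])
    simp only [map_neg, LinearMap.neg_apply, neg_neg] at r2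
    have g1 := n.pos x x0
    have g2 := n.pos _ (neg_ne_zero.2 x0)
    have k1 : β e e * (N x - N (-x)) + (β x e + β e x) = 0 := by
      have : (N x + N (-x)) * (β e e * (N x - N (-x)) + (β x e + β e x)) = 0 := by
        linear_combination r1 - r2
      exact (mul_eq_zero.1 this).resolve_left (by positivity)
    exact ⟨k1, by linear_combination r1 - N x * k1⟩
  have A0 : β e e ≠ 0 := fun h => hy (by
    obtain ⟨k1, k2⟩ := k _ (inner_hor he y)
    have e1 : y = hor e y + ⟪e, y⟫ • e := by rw [hor, sub_add_cancel]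
    rw [h] at k1 k2
    rw [e1]
    generalize hor e y = x at k1 k2
    simp only [map_add, map_smul, LinearMap.add_apply, LinearMap.smul_apply, smul_eq_mul, h]
    linear_combination k2 + ⟪e, y⟫ * k1)
  refine ⟨-(β e e)⁻¹ • (β.flip e + β e), -(β e e)⁻¹ • β, fun x hx => ?_⟩
  obtain ⟨k1, k2⟩ := k x hx
  simp only [LinearMap.smul_apply, LinearMap.add_apply, LinearMap.flip_apply, smul_eq_mul]
  constructor
  · field_simp
    linear_combination k1
  · field_simp
    linear_combination k2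

end Pool.Agent.Lib.MP_2f98a8_gt.Ev
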