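import Mathlib
import Pool.Agent.Lib.MP_2f98a8_gt.Ev.Fam

/-!
A convex body whose even-dimensional sections through an interior point are projectively
equivalent is an ellipsoid.
-/

namespace Pool.Agent.Lib.MP_2f98a8_gt.Ev

open Set Filter Topology Real

/-- Euclidean space. -/
abbrev En (n : ℕ) := EuclideanSpace ℝ (Fin n)

variable {n : ℕ}

lemma exists_sqrt_form (Q : QuadraticForm ℝ (En n)) (hQ : ∀ x, x ≠ 0 → 0 < Q x) :
    ∃ S : (En n) ≃ₗ[ℝ] (En n), ∀ x, Q x = ‖S x‖ ^ 2 := by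
  obtain ⟨w, ⟨e⟩⟩ := Q.equivalent_weightedSumSquares
  have hn : Module.finrank ℝ (En n) = n := by simp
  have hw : ∀ i, 0 < w i := by
    intro i
    have h1 := e.map_app (e.toLinearEquiv.symm (Pi.single i 1))
    have h2 : e (e.toLinearEquiv.symm (Pi.single i 1)) = Pi.single i 1 :=
      e.toLinearEquiv.apply_symm_apply _
    rw [h2, QuadraticMap.weightedSumSquares_apply, Finset.sum_eq_single i
      (fun j _ hj => by simp [hj]) (by simp)] at h1
    have h3 := hQ (e.toLinearEquiv.symm (Pi.single i 1)) (by simp)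
    rw [← h1] at h3
    simpa using h3
  let f : (En n) →ₗ[ℝ] (En n) :=
    { toFun := fun x => WithLp.toLp 2 fun j =>
        √(w (Fin.cast hn.symm j)) * e.toLinearEquiv x (Fin.cast hn.symm j)
      map_add' := fun x y => by ext j; simp [mul_add]
      map_smul' := fun c x => by ext j; simp; ring }
  have hf : ∀ x, Q x = ‖f x‖ ^ 2 := by
    intro x
    rw [← e.map_app, QuadraticMap.weightedSumSquares_apply, EuclideanSpace.real_norm_sq_eq,
      ← (finCongr hn.symm).sum_comp]
    refine Finset.sum_congr rfl fun j _ => ?_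
    simp only [f, LinearMap.coe_mk, AddHom.coe_mk, finCongr_apply, smul_eq_mul, mul_pow,
      sq_sqrt (hw _).le]
    rw [sq]
    rfl
  refine ⟨f.linearEquivOfInjective ?_ rfl, hf⟩
  rw [injective_iff_map_eq_zero]
  intro x hx
  by_contra h0
  have := hQ x h0
  rw [hf, hx] at this
  simp at this

theorem ellipsoid_of_planar {G : (En n) → ℝ} (pos : ∀ x, x ≠ 0 → 0 < G x)
    (hom : ∀ c : ℝ, 0 ≤ c → ∀ x, G (c • x) = c * G x)
    (planar' : ∀ a b : En n, ∃ p q A B C : ℝ, ∀ s t : ℝ,
      G (s • a + t • b) - G (-(s • a + t • b)) = p * s + q * t ∧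
      G (s • a + t • b) * G (-(s • a + t • b)) = A * s ^ 2 + B * s * t + C * t ^ 2) :
    ∃ A : (En n) ≃ᵃ[ℝ] (En n), {x | G x ≤ 1} = A '' Metric.closedBall 0 1 := by
  have G0 : G 0 = 0 := by simpa using hom 0 le_rfl 0
  have nn : ∀ x, 0 ≤ G x := fun x => by
    rcases eq_or_ne x 0 with rfl | h
    · exact G0.ge
    · exact (pos x h).le
  have line : ∀ (c : ℝ) x, G (c • x) - G (-(c • x)) = c * (G x - G (-x)) ∧
      G (c • x) * G (-(c • x)) = c ^ 2 * (G x * G (-x)) := by
    intro c x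
    rcases le_total 0 c with hc | hc
    · rw [← smul_neg, hom c hc, hom c hc]
      constructor <;> ring
    · rw [← neg_smul, hom (-c) (by linarith), ← neg_smul_neg, hom (-c) (by linarith)]
      constructor <;> ring
  let l : (En n) →ₗ[ℝ] ℝ :=
    { toFun := fun x => G x - G (-x)
      map_add' := fun x y => by
        obtain ⟨p, q, A, B, C, h⟩ := planar' x y
        have h1 := (h 1 1).1
        have h2 := (h 1 0).1
        have h3 := (h 0 1).1
        simp only [one_smul, zero_smul, add_zero, zero_add] at h1 h2 h3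
        linarith
      map_smul' := fun c x => (line c x).1 }
  let q : (En n) → ℝ := fun x => G x * G (-x)
  have par : ∀ x y, q (x + y) + q (x - y) = 2 * q x + 2 * q y := by
    intro x y
    obtain ⟨p, q', A, B, C, h⟩ := planar' x y
    have h1 := (h 1 1).2
    have h2 := (h 1 0).2
    have h3 := (h 0 1).2
    have h4 := (h 1 (-1)).2
    simp only [one_smul, zero_smul, add_zero, zero_add, neg_smul, ← sub_eq_add_neg] at h1 h2 h3 h4
    simp only [q]
    linarith
  let Q : QuadraticForm ℝ (En n) := QuadraticMap.ofPolar q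
    (fun c x => by simp only [q, (line c x).2, smul_eq_mul]; ring)
    (fun x y z => by
      have h1 := par (x + z) y
      have h2 := par (y + z) x
      have h3 := par z (x - y)
      have h4 := par x y
      have e1 : x + z + y = x + y + z := by abel
      have e2 : y + z + x = x + y + z := by abel
      have e3 : z + (x - y) = x + z - y := by abel
      have e4 : z - (x - y) = y + z - x := by abel
      rw [e1] at h1
      rw [e2] at h2
      rw [e3, e4] at h3
      simp only [QuadraticMap.polar]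
      linarith)
    (fun c x y => by
      obtain ⟨p, q', A, B, C, h⟩ := planar' x y
      have h1 := (h 1 1).2
      have h2 := (h 1 0).2
      have h3 := (h 0 1).2
      have h4 := (h c 1).2
      have h5 := (h c 0).2
      simp only [one_smul, zero_smul, add_zero, zero_add] at h1 h2 h3 h4 h5
      simp only [QuadraticMap.polar, q, smul_eq_mul]
      rw [h1, h2, h3, h4, h5]
      ring)
  obtain ⟨S, hS⟩ := exists_sqrt_form Q fun x hx => mul_pos (pos x hx) (pos _ (neg_ne_zero.2 hx))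
  obtain ⟨m, hm⟩ : ∃ m : (En n), ∀ y, l (S.symm y) = 2 * inner ℝ y m := by
    refine ⟨(1 / 2 : ℝ) • (InnerProductSpace.toDual ℝ (En n)).symm
      (LinearMap.toContinuousLinearMap (l ∘ₗ S.symm.toLinearMap)), fun y => ?_⟩
    rw [real_inner_smul_right, real_inner_comm, InnerProductSpace.toDual_symm_apply]
    simp
  set ρ := √(1 + ‖m‖ ^ 2) with hρ
  have ρ0 : 0 < ρ := sqrt_pos.2 (by positivity)
  have ρ2 : ρ ^ 2 = 1 + ‖m‖ ^ 2 := sq_sqrt (by positivity)
  have key : ∀ x, G x ≤ 1 ↔ ‖S x + m‖ ≤ ρ := by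
    intro x
    have h1 : G x * G (-x) = ‖S x‖ ^ 2 := hS x
    have h2 : G x - G (-x) = 2 * inner ℝ (S x) m := by
      rw [← hm, S.symm_apply_apply]; rfl
    rw [← sq_le_sq₀ (norm_nonneg _) ρ0.le, norm_add_sq_real, ρ2]
    have := nn (-x)
    constructor
    · intro h
      nlinarith
    · intro h
      by_contra hc
      push Not at hc
      nlinarith
  refine ⟨((LinearEquiv.smulOfNeZero ℝ (En n) ρ ρ0.ne').toAffineEquiv.trans
    (AffineEquiv.constVAdd ℝ (En n) (-m))).trans S.symm.toAffineEquiv, ?_⟩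
  ext x
  simp only [mem_ofPred_eq, key, mem_image, mem_closedBall_zero_iff]
  constructor
  · intro h
    refine ⟨ρ⁻¹ • (S x + m), ?_, ?_⟩
    · rw [norm_smul, norm_inv, norm_of_nonneg ρ0.le, inv_mul_le_iff₀ ρ0, mul_one]
      exact h
    · simp [smul_smul, ρ0.ne']
  · rintro ⟨y, hy, rfl⟩
    simp only [AffineEquiv.trans_apply, LinearEquiv.coe_toAffineEquiv, AffineEquiv.constVAdd_apply,
      vadd_eq_add, LinearEquiv.apply_symm_apply, LinearEquiv.smulOfNeZero_apply,
      neg_add_cancel_comm, norm_smul, norm_of_nonneg ρ0.le]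
    nlinarith

lemma exists_sup_finrank {E : Type*} [AddCommGroup E] [Module ℝ E] [FiniteDimensional ℝ E]
    (W : Submodule ℝ E) : ∀ m : ℕ, Module.finrank ℝ W ≤ m → m ≤ Module.finrank ℝ E →
      ∃ W' : Submodule ℝ E, W ≤ W' ∧ Module.finrank ℝ W' = m := by
  intro m hm
  induction m, hm using Nat.le_induction with
  | base => exact fun _ => ⟨W, le_rfl, rfl⟩
  | succ m hm ih =>
    intro h
    obtain ⟨W', h1, h2⟩ := ih (by omega)
    obtain ⟨x, hx⟩ := W'.exists_of_finrank_lt (by omega)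
    exact ⟨W' ⊔ Submodule.span ℝ {x}, h1.trans le_sup_left, by
      rw [Submodule.finrank_sup_span_singleton (by simpa using hx 1 one_ne_zero), h2]⟩

lemma inner_shift {V : Type*} [NormedAddCommGroup V] [InnerProductSpace ℝ V] {e : V} (he : ‖e‖ = 1)
    (y : V) (τ : ℝ) : inner ℝ e (y + (τ - inner ℝ e y) • e) = τ := by
  rw [inner_add_right, inner_smul_right, inner_ee he]
  ring

lemma inner_comb {V : Type*} [NormedAddCommGroup V] [InnerProductSpace ℝ V] {a b z : V}
    (h1 : inner ℝ a z = 0) (h2 : inner ℝ b z = 0) (c s t : ℝ) :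
    inner ℝ (c • z) (s • a + t • b) = 0 := by
  rw [real_inner_smul_left, inner_add_right, real_inner_smul_right, real_inner_smul_right,
    real_inner_comm, h1, real_inner_comm, h2]
  simp

variable {K : Set (En n)}

lemma gauge_pos' (hc : IsCompact K) (h0 : K ∈ 𝓝 (0 : En n)) {x : En n} (hx : x ≠ 0) :
    0 < gauge K x :=
  (gauge_pos (absorbent_nhds_zero h0)
    ((NormedSpace.isVonNBounded_iff ℝ).2 hc.isBounded)).2 hx

section Chart

variable {W : Type*} [NormedAddCommGroup W] [InnerProductSpace ℝ W] [FiniteDimensional ℝ W]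

lemma exists_chart (hv : Convex ℝ K) (hc : IsCompact K) (h0 : K ∈ 𝓝 (0 : En n))
    {j : W →ₗ[ℝ] En n} (hj : Function.Injective j) {k : ℕ} (hk : 0 < k)
    (hW : Module.finrank ℝ W = k + 1) {e : W} (he : ‖e‖ = 1) (u : W) :
    ∃ H : Submodule ℝ (En n), Module.finrank ℝ H = k ∧ ∃ ι : W ≃ₗ[ℝ] (H × ℝ), ∀ y : W,
      DC (sF e (fun x : W => gauge K (j x)) u) y ↔
        ι y ∈ {p : H × ℝ | ∃ t : ℝ, ∃ x : H, (x : En n) ∈ frontier K ∧ p = (t • x, t)} := by
  let H : Submodule ℝ (En n) := LinearMap.range (j ∘ₗ Lm e u)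
  let f : W →ₗ[ℝ] (H × ℝ) :=
    (j ∘ₗ Lm e u).rangeRestrict.prod ((innerSL ℝ e : W →L[ℝ] ℝ) : W →ₗ[ℝ] ℝ)
  have f1 : ∀ y, ((f y).1 : En n) = j (Lm e u y) := fun _ => rfl
  have f2 : ∀ y, (f y).2 = inner ℝ e y := fun _ => rfl
  have hf : Function.Bijective f := by
    constructor
    · rw [injective_iff_map_eq_zero]
      intro y hy
      refine Lm_inj he (u := u) ?_ (by rw [← f2, hy]; rfl)
      exact hj (by rw [← f1, hy, map_zero]; rfl)
    · rintro ⟨⟨_, y, rfl⟩, τ⟩
      refine ⟨y + (τ - inner ℝ e y) • e, Prod.ext (Subtype.ext ?_) ?_⟩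
      · rw [f1, map_add, map_smul, Lm_e he, smul_zero, add_zero]; rfl
      · exact inner_shift he y τ
  have hH : Module.finrank ℝ H = k := by
    have := (LinearEquiv.ofBijective f hf).finrank_eq
    rw [hW, Module.finrank_prod, Module.finrank_self] at this
    omega
  refine ⟨H, hH, LinearEquiv.ofBijective f hf, fun y => ?_⟩
  rw [LinearEquiv.ofBijective_apply]
  obtain ⟨a, a0⟩ := Module.finrank_pos_iff_exists_ne_zero.1 (hH ▸ hk)
  have ga := gauge_pos' hc h0 (x := a) (by simpa using a0)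
  have core : ∀ (u : H) (t : ℝ), gauge K (u : En n) = t →
      ∃ x : H, (x : En n) ∈ frontier K ∧ u = t • x := by
    intro u t e
    rcases eq_or_ne u 0 with rfl | hu
    · refine ⟨(gauge K (a : En n))⁻¹ • a, ?_, ?_⟩
      · rw [← gauge_eq_one_iff_mem_frontier hv h0, Submodule.coe_smul,
          gauge_smul_of_nonneg (inv_pos.2 ga).le]
        exact inv_mul_cancel₀ ga.ne'
      · simp [← e]
    · have := gauge_pos' hc h0 (x := u) (by simpa using hu)
      rw [e] at this
      refine ⟨t⁻¹ • u, ?_, by rw [smul_smul, mul_inv_cancel₀ this.ne', one_smul]⟩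
      rw [← gauge_eq_one_iff_mem_frontier hv h0, Submodule.coe_smul,
        gauge_smul_of_nonneg (inv_pos.2 this).le, e]
      exact inv_mul_cancel₀ this.ne'
  have key : ∀ y, sF e (fun x : W => gauge K (j x)) u y = 0 ↔
      gauge K ((f y).1 : En n) = (f y).2 := fun y => sub_eq_zero
  rw [DC, key, key, map_neg]
  generalize f y = p
  constructor
  · rintro (e | e)
    · obtain ⟨x, hx, ex⟩ := core p.1 p.2 e
      exact ⟨p.2, x, hx, Prod.ext ex rfl⟩
    · obtain ⟨x, hx, ex⟩ := core (-p.1) (-p.2) e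
      rw [neg_smul, neg_inj] at ex
      exact ⟨p.2, x, hx, Prod.ext ex rfl⟩
  · rintro ⟨t, x, hx, rfl⟩
    rw [← gauge_eq_one_iff_mem_frontier hv h0] at hx
    rcases le_total 0 t with ht | ht
    · left
      rw [Submodule.coe_smul, gauge_smul_of_nonneg ht, hx]
      simp
    · right
      rw [Prod.fst_neg, ← neg_smul, Submodule.coe_smul, gauge_smul_of_nonneg (neg_nonneg.2 ht), hx]
      simp

lemma planar_of (hv : Convex ℝ K) (hc : IsCompact K) (h0 : K ∈ 𝓝 (0 : En n))
    {j : W →ₗ[ℝ] En n} (hj : Function.Injective j) {k : ℕ} (hk : Even k) (h2 : 2 ≤ k)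
    (dW : Module.finrank ℝ W = k + 1)
    (H : ∀ H₁ H₂ : Submodule ℝ (En n), Module.finrank ℝ H₁ = k → Module.finrank ℝ H₂ = k →
      ∃ L : (H₁ × ℝ) ≃ₗ[ℝ] (H₂ × ℝ),
        L '' {p : H₁ × ℝ | ∃ t : ℝ, ∃ x : H₁, (x : En n) ∈ frontier K ∧ p = (t • x, t)} =
          {p : H₂ × ℝ | ∃ t : ℝ, ∃ x : H₂, (x : En n) ∈ frontier K ∧ p = (t • x, t)})
    (a b : W) : ∃ p q A B C : ℝ, ∀ s t : ℝ,
      gauge K (s • j a + t • j b) - gauge K (-(s • j a + t • j b)) = p * s + q * t ∧
      gauge K (s • j a + t • j b) * gauge K (-(s • j a + t • j b)) =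
        A * s ^ 2 + B * s * t + C * t ^ 2 := by
  have : CompleteSpace W := FiniteDimensional.complete ℝ W
  obtain ⟨z, hz, z0⟩ := Submodule.exists_mem_ne_zero_of_ne_bot
    (LinearMap.ker_ne_bot_of_finrank_lt (f := (((innerSL ℝ a).prod
      (innerSL ℝ b) : W →L[ℝ] ℝ × ℝ) : W →ₗ[ℝ] ℝ × ℝ)) (by simp [dW]; omega))
  have z1 : inner ℝ a z = 0 := congrArg Prod.fst hz
  have z2 : inner ℝ b z = 0 := congrArg Prod.snd hz
  have he : ‖‖z‖⁻¹ • z‖ = 1 := by simp [norm_smul, z0]
  have nr : Nrm fun x : W => gauge K (j x) :=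
    ⟨(continuous_gauge hv h0).comp j.continuous_of_finiteDimensional,
      fun x y => by rw [map_add]; exact gauge_add_le hv (absorbent_nhds_zero h0) _ _,
      fun c hc x => by rw [map_smul]; exact gauge_smul_of_nonneg hc _,
      fun x hx => gauge_pos' hc h0 fun h => hx (hj (by rw [h, map_zero]))⟩
  obtain ⟨l, q, h⟩ := nr.planar he (dW ▸ hk.add_one) (by omega) (fun x y => by
    obtain ⟨H₁, d₁, ι₁, e₁⟩ := exists_chart hv hc h0 hj (by omega) dW he x
    obtain ⟨H₂, d₂, ι₂, e₂⟩ := exists_chart hv hc h0 hj (by omega) dW he y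
    obtain ⟨L, hL⟩ := H H₁ H₂ d₁ d₂
    let T : W ≃ₗ[ℝ] W := (ι₁.trans L).trans ι₂.symm
    refine ⟨LinearMap.toContinuousLinearMap T.toLinearMap,
      ContinuousLinearMap.isUnit_iff_bijective.2 T.bijective, fun v => ?_⟩
    rw [e₁, e₂, ← hL]
    simp only [T, LinearMap.coe_toContinuousLinearMap', LinearEquiv.coe_coe,
      LinearEquiv.trans_apply, LinearEquiv.apply_symm_apply]
    exact (L.injective.mem_set_image).symm)
  refine ⟨l a, l b, q a a, q a b + q b a, q b b, fun s t => ?_⟩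
  obtain ⟨h1, h2⟩ := h (s • a + t • b) (inner_comb z1 z2 _ s t)
  simp only [map_add, map_smul, map_neg, LinearMap.add_apply, LinearMap.smul_apply,
    smul_eq_mul] at h1 h2
  exact ⟨h1.trans (by ring), h2.trans (by ring)⟩

end Chart

theorem main {k : ℕ} (hk : Even k) (h2 : 2 ≤ k) (hn : k < n) (hv : Convex ℝ K) (hc : IsCompact K)
    (hi : (0 : En n) ∈ interior K)
    (H : ∀ H₁ H₂ : Submodule ℝ (En n), Module.finrank ℝ H₁ = k → Module.finrank ℝ H₂ = k →
      ∃ L : (H₁ × ℝ) ≃ₗ[ℝ] (H₂ × ℝ),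
        L '' {p : H₁ × ℝ | ∃ t : ℝ, ∃ x : H₁, (x : En n) ∈ frontier K ∧ p = (t • x, t)} =
          {p : H₂ × ℝ | ∃ t : ℝ, ∃ x : H₂, (x : En n) ∈ frontier K ∧ p = (t • x, t)}) :
    ∃ A : En n ≃ᵃ[ℝ] En n, K = A '' Metric.closedBall 0 1 := by
  have h0 : K ∈ 𝓝 (0 : En n) := mem_interior_iff_mem_nhds.1 hi
  obtain ⟨A, hA⟩ := ellipsoid_of_planar (G := gauge K) (fun x hx => gauge_pos' hc h0 hx)
    (fun c hc x => gauge_smul_of_nonneg hc x) (fun a b => by
      obtain ⟨W, hW, dW⟩ := exists_sup_finrank (Submodule.span ℝ (range ![a, b])) (k + 1)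
        ((finrank_range_le_card ![a, b]).trans (by simp; omega)) (by simp; omega)
      have ha : a ∈ W := hW (Submodule.subset_span ⟨0, rfl⟩)
      have hb : b ∈ W := hW (Submodule.subset_span ⟨1, rfl⟩)
      let φ : En (k + 1) ≃ₗ[ℝ] W := LinearEquiv.ofFinrankEq _ _ (by simp [dW])
      have := planar_of hv hc h0 (j := W.subtype ∘ₗ φ.toLinearMap)
        (W.injective_subtype.comp φ.injective) hk h2 (by simp) H (φ.symm ⟨a, ha⟩) (φ.symm ⟨b, hb⟩)
      simpa only [LinearMap.comp_apply, LinearEquiv.coe_coe, LinearEquiv.apply_symm_apply,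
        Submodule.subtype_apply] using this)
  refine ⟨A, ?_⟩
  rw [← hA]
  ext x
  rw [mem_ofPred_eq, gauge_le_one_iff_mem_closure hv h0, hc.isClosed.closure_eq]

end Pool.Agent.Lib.MP_2f98a8_gt.Ev
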